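import Pool.Agent.W78.EG.Defs

/-!
Project EL (helper912): the two-factor method for ARBITRARY completely multiplicative functions
`F₁, F₂` (no condition on `F₁(π) F₂(π)`). The constant `τ = F₁(π) F₂(π)` of project EG becomes an
arbitrary coefficient at each prime `p`, so the bilinear estimate `Bt` is needed for `a(p) θ(p)` with
arbitrary `|a(p)| ≤ 1` in place of `θ(p)`. Statements of the parts.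
-/

set_option autoImplicit false

namespace Pool.Agent.N912.EL

open Finset Filter
open Pool.Agent.W78.GA (Qd nm prim dt ip lat ball pball edge dedge ang)
open Pool.Agent.W78.EC (psi Tr av)
open Pool.Agent.W251.GX (Cm)
open Pool.Agent.W78.EG

variable {t c : ℤ} {f : ℕ}

/-- `a(m) θ(m)` -/
noncomputable def ta (χ : DirichletCharacter ℂ f) (a : ℕ → ℝ) (Q : ℕ) (m : ℤ) : ℝ :=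
  a m.toNat * th χ Q m

/-! ### Character sums -/

/-- LS4 with coefficients -/
def S_LS4a (χ : DirichletCharacter ℂ f) : Prop := ∀ C₀ A : ℕ, ∃ (B : ℕ) (C : ℝ) (Q₀ : ℕ),
  ∀ Q : ℕ, Q₀ ≤ Q → ∀ a : ℕ → ℝ, (∀ m, |a m| ≤ 1) → ∀ x : ℕ, Q ≤ x →
  x ≤ 2 * Q → ∑ q ∈ (Icc 1 (C₀ * Q)).filter (fun q : ℕ => Real.log Q ^ B < (q : ℝ)),
    1 / (Nat.totient q : ℝ) *
    (open scoped Classical in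
      ∑ ψ ∈ (univ : Finset (DirichletCharacter ℂ q)).filter (fun ψ => ψ.IsPrimitive),
      ‖∑ m ∈ Ioc Q x, (ta χ a Q m : ℂ) * ψ (m : ZMod q)‖ ^ 4) ≤ C * (Q : ℝ) ^ 4 / Real.log Q ^ A

/-- BES: Bessel's inequality for the characters of small conductor -/
def S_BES (χ : DirichletCharacter ℂ f) : Prop := ∀ B : ℕ, ∃ (C : ℝ) (Q₀ : ℕ),
  ∀ Q : ℕ, Q₀ ≤ Q → ∀ a : ℕ → ℝ, (∀ m, |a m| ≤ 1) → ∀ x : ℕ, Q ≤ x → x ≤ 2 * Q →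
  ∑ q ∈ (Icc 1 Q).filter (fun q : ℕ => (q : ℝ) ≤ Real.log Q ^ B),
    (open scoped Classical in
      ∑ ψ ∈ (univ : Finset (DirichletCharacter ℂ q)).filter (fun ψ => ψ.IsPrimitive),
      ‖∑ m ∈ Ioc Q x, (ta χ a Q m : ℂ) * ψ (m : ZMod q)‖ ^ 2) ≤ C * (Q : ℝ) ^ 2

/-- the difference between the sum over `m₂ ≡ b m₁ mod D` and its value expected from the residues
modulo `g = gcd(D, M)` -/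
noncomputable def EEa (χ : DirichletCharacter ℂ f) (a : ℕ → ℝ) (M Q D b x y : ℕ) : ℝ :=
  ∑ m₁ ∈ Ioc Q x, ∑ m₂ ∈ Ioc Q y,
    ((if m₂ ≡ b * m₁ [MOD D] then (1 : ℝ) else 0) -
      (Nat.totient (Nat.gcd D M) : ℝ) / (Nat.totient D : ℝ) *
        (if m₂ ≡ b * m₁ [MOD Nat.gcd D M] then (1 : ℝ) else 0)) * (ta χ a Q m₁ * ta χ a Q m₂)

/-- LSa: pairs of primes with coefficients in residue classes, on average -/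
def S_LSa (χ : DirichletCharacter ℂ f) : Prop := ∀ (C₀ : ℕ) (δ ε : ℝ), 0 < δ → 0 < ε →
  ∃ M : ℕ, 1 ≤ M ∧ ∃ Q₀ : ℕ, ∀ Q : ℕ, Q₀ ≤ Q → ∀ a : ℕ → ℝ, (∀ m, |a m| ≤ 1) →
  ∀ x y : ℕ, Q ≤ x → x ≤ 2 * Q → Q ≤ y → y ≤ 2 * Q →
  ∑ D ∈ (Icc 1 (C₀ * Q)).filter (fun D : ℕ => δ * Q ≤ (D : ℝ)),
    ∑ b ∈ (range D).filter (fun b => Nat.Coprime b D), |EEa χ a M Q D b x y| ≤ ε * (Q : ℝ) ^ 3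

/-! ### The second moment -/

/-- `Gv` with coefficients -/
noncomputable def Gva (χ : DirichletCharacter ℂ f) (a : ℕ → ℝ) (Q : ℕ) (X : ℝ) (w₁ w₂ : Qd t c) : ℝ :=
  ∑ v ∈ ball t c (4 * X), psi (nm v / X) * ta χ a Q (dt v w₁) * ta χ a Q (dt v w₂)

/-- the weight -/
noncomputable def ps (X : ℝ) (w₁ w₂ : Qd t c) (m₁ m₂ : ℕ) : ℝ :=
  psi (nm ((m₂ : Qd t c) * w₁ - (m₁ : Qd t c) * w₂) / ((dt w₁ w₂ : ℝ) ^ 2 * X))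

/-- `m₂ w₁ ≡ m₁ w₂ mod g` -/
def Cg (g : ℕ) (w₁ w₂ : Qd t c) (m₁ m₂ : ℕ) : Prop :=
  (g : ℤ) ∣ (m₂ : ℤ) * w₁.re - m₁ * w₂.re ∧ (g : ℤ) ∣ (m₂ : ℤ) * w₁.im - m₁ * w₂.im

open scoped Classical in
/-- the main term of `Gva`, if `dt w₁ w₂ > 0` -/
noncomputable def G0a (χ : DirichletCharacter ℂ f) (a : ℕ → ℝ) (M Q : ℕ) (X : ℝ)
    (w₁ w₂ : Qd t c) : ℝ :=
  (Nat.totient (Nat.gcd (dt w₁ w₂).toNat M) : ℝ) / (Nat.totient (dt w₁ w₂).toNat : ℝ) *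
    ∑ m₁ ∈ Ioc Q (2 * Q), ∑ m₂ ∈ Ioc Q (2 * Q),
      (if Cg (Nat.gcd (dt w₁ w₂).toNat M) w₁ w₂ m₁ m₂ then ta χ a Q m₁ * ta χ a Q m₂ else 0) *
        ps X w₁ w₂ m₁ m₂

/-- GVLa: `Gva` as a sum over pairs of integers -/
def S_GVLa (t c : ℤ) (χ : DirichletCharacter ℂ f) : Prop := ∀ (Q : ℕ) (X : ℝ) (w₁ w₂ : Qd t c),
  1 ≤ X → prim w₁ → prim w₂ → 0 < dt w₁ w₂ →
  ∃ b : ℕ, b < (dt w₁ w₂).toNat ∧ Nat.Coprime b (dt w₁ w₂).toNat ∧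
    dt w₁ w₂ ∣ w₂.re - b * w₁.re ∧ dt w₁ w₂ ∣ w₂.im - b * w₁.im ∧
    (∀ g : ℕ, g ∣ (dt w₁ w₂).toNat → ∀ m₁ m₂ : ℕ, Cg g w₁ w₂ m₁ m₂ ↔ m₂ ≡ b * m₁ [MOD g]) ∧
    ∀ a : ℕ → ℝ, Gva χ a Q X w₁ w₂ = ∑ m₁ ∈ Ioc Q (2 * Q), ∑ m₂ ∈ Ioc Q (2 * Q),
      (if m₂ ≡ b * m₁ [MOD (dt w₁ w₂).toNat] then ta χ a Q m₁ * ta χ a Q m₂ else 0) *
        ps X w₁ w₂ m₁ m₂

open scoped Classical in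
/-- GGa: `Gva = G0a` on average over the pairs in a cone -/
def S_GGa (t c : ℤ) (χ : DirichletCharacter ℂ f) : Prop := ∀ (K : ℕ) (κ s₁ δ ε : ℝ), 1 ≤ K →
  0 < κ → 0 < s₁ → 0 < δ → δ ≤ 1 → 0 < ε → ∃ M : ℕ, 1 ≤ M ∧ ∃ Q₀ : ℕ, ∀ Q : ℕ,
  Q₀ ≤ Q → ∀ a : ℕ → ℝ, (∀ m, |a m| ≤ 1) → ∀ X : ℝ, f * (K * Q : ℝ) ≤ X →
  ∀ e ∈ good t c K κ Q X,
    (∑ w₁ ∈ cw X s₁ 1 e.1 e.2, ∑ w₂ ∈ cw X s₁ 1 e.1 e.2,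
      if δ * Q ≤ (dt w₁ w₂ : ℝ) then |Gva χ a Q X w₁ w₂ - G0a χ a M Q X w₁ w₂| else 0) ≤
      ε * (Q : ℝ) ^ 3

open scoped Classical in
/-- SML: the pairs with small determinant -/
def S_SML (t c : ℤ) (χ : DirichletCharacter ℂ f) : Prop := ∀ (K : ℕ) (κ s₁ s₂ : ℝ), 1 ≤ K →
  0 < κ → 0 < s₁ → s₁ < s₂ → s₂ ≤ 1 → ∃ C : ℝ, 0 < C ∧ ∀ δ : ℝ, 0 < δ → δ ≤ 1 → ∃ Q₀ : ℕ,
  ∀ Q : ℕ, Q₀ ≤ Q → ∀ X : ℝ, f * (K * Q : ℝ) ≤ X →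
    ∑ e ∈ good t c K κ Q X, ∑ w₁ ∈ cw X s₁ s₂ e.1 e.2, ∑ w₂ ∈ cw X s₁ s₂ e.1 e.2,
      (if |(dt w₁ w₂ : ℝ)| < δ * Q then Gv χ Q X w₁ w₂ else 0) ≤ C * δ * X * (Q : ℝ) ^ 2

/-! ### The main term -/

/-- PSV: the weight is almost constant on small cells -/
def S_PSV (t c : ℤ) : Prop := ∀ (C₀ s δ ε : ℝ), 0 < C₀ → 0 < s → 0 < δ → 0 < ε →
  ∃ ε₁ : ℝ, 0 < ε₁ ∧ ∀ (Q : ℕ)
  (X : ℝ) (w₁ w₂ w₁' w₂' : Qd t c), 1 ≤ Q → 1 ≤ ε₁ * X → Q ≤ ε₁ * X →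
  (∀ w ∈ ({w₁, w₂, w₁', w₂'} : Set (Qd t c)), s * X < (nm w : ℝ) ∧ (nm w : ℝ) ≤ X) →
  |(dt w₁ w₂ : ℝ)| ≤ C₀ * Q → |(dt w₁' w₂' : ℝ)| ≤ C₀ * Q →
  |(nm w₁ : ℝ) - nm w₁'| ≤ ε₁ * X → |(nm w₂ : ℝ) - nm w₂'| ≤ ε₁ * X →
  0 < pp w₁ w₂ → 0 < pp w₁' w₂' →
  |ang w₁ - ang w₁'| ≤ ε₁ * Q / X → |ang w₂ - ang w₂'| ≤ ε₁ * Q / X →
  |(dt w₁ w₂ : ℝ) - dt w₁' w₂'| ≤ ε * Q ∧
  (δ * Q ≤ (dt w₁ w₂ : ℝ) → δ * Q ≤ (dt w₁' w₂' : ℝ) →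
    ∀ m₁ ∈ Ioc Q (2 * Q), ∀ m₂ ∈ Ioc Q (2 * Q), |ps X w₁ w₂ m₁ m₂ - ps X w₁' w₂' m₁ m₂| ≤ ε)

/-- periodic relations between residue classes -/
structure FamP (M : ℕ) (S : Qd t c → Qd t c → Prop) : Prop where
  M1 : 1 ≤ M
  cls : ∀ w, Per M (fun z => S z w)
  per : ∀ z w w' : Qd t c, (M : ℤ) ∣ w.re - w'.re → (M : ℤ) ∣ w.im - w'.im → (S z w ↔ S z w')

open scoped Classical in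
/-- CORE: bilinear sums with a kernel which is almost constant on small cells -/
def S_CORE (t c : ℤ) : Prop := ∀ A : Qd t c → ℝ, (∀ z, |A z| ≤ 1) → Mrs A →
  ∀ (K : ℕ) (κ s₁ s₂ : ℝ), 1 ≤ K → 0 < κ → 0 < s₁ → s₁ < s₂ → s₂ ≤ 1 →
  ∀ (M : ℕ) (S : Qd t c → Qd t c → Prop), FamP M S →
  ∀ B ε : ℝ, 0 < B → 0 < ε → ∃ η : ℝ, 0 < η ∧ ∀ ε₁ : ℝ, 0 < ε₁ →
  ∃ Q₀ : ℕ, ∀ Q : ℕ, Q₀ ≤ Q → ∃ X₀ : ℝ, ∀ X : ℝ, X₀ ≤ X → ∀ k : Qd t c → Qd t c → ℝ,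
    (∀ e ∈ good t c K κ Q X, ∀ z ∈ cw X s₁ s₂ e.1 e.2, ∀ w ∈ cw X s₁ s₂ e.1 e.2,
      |k z w| ≤ B * Q) →
    (∀ e ∈ good t c K κ Q X, ∀ z ∈ cw X s₁ s₂ e.1 e.2, ∀ z' ∈ cw X s₁ s₂ e.1 e.2,
      ∀ w ∈ cw X s₁ s₂ e.1 e.2, |(nm z : ℝ) - nm z'| ≤ ε₁ * X → |ang z - ang z'| ≤ ε₁ * Q / X →
      |k z w - k z' w| ≤ η * Q) →
    |∑ e ∈ good t c K κ Q X, ∑ w ∈ cw X s₁ s₂ e.1 e.2, ∑ z ∈ cw X s₁ s₂ e.1 e.2,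
      (if S z w then A z * A w * k z w else 0)| ≤ ε * X * (Q : ℝ) ^ 2

/-- the cutoff function: `0` for `x ≤ δ`, `1` for `2 δ ≤ x` -/
noncomputable def rho (δ x : ℝ) : ℝ := max 0 (min 1 (x / δ - 1))

/-- BTMa: the main term, with coefficients -/
def S_BTMa (t c : ℤ) (χ : DirichletCharacter ℂ f) : Prop := ∀ A : Qd t c → ℝ,
  (∀ z, |A z| ≤ 1) → Mrs A → ∀ (K : ℕ) (κ s₁ s₂ : ℝ), 1 ≤ K → 0 < κ → 0 < s₁ → s₁ < s₂ → s₂ ≤ 1 →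
  ∀ (M : ℕ) (δ ε : ℝ), 1 ≤ M → 0 < δ → δ ≤ 1 → 0 < ε → ∃ Q₀ : ℕ, ∀ Q : ℕ, Q₀ ≤ Q →
  ∃ X₀ : ℝ, ∀ X : ℝ, X₀ ≤ X → ∀ a : ℕ → ℝ, (∀ m, |a m| ≤ 1) →
    |∑ e ∈ good t c K κ Q X, ∑ w₁ ∈ cw X s₁ s₂ e.1 e.2, ∑ w₂ ∈ cw X s₁ s₂ e.1 e.2,
      A w₁ * A w₂ * (rho δ ((dt w₁ w₂ : ℝ) / Q) * G0a χ a M Q X w₁ w₂)| ≤
      ε * X * (Q : ℝ) ^ 2

/-- the bilinear estimate with coefficients -/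
def Bta (χ : DirichletCharacter ℂ f) (A : Qd t c → ℝ) : Prop := ∀ (K : ℕ) (κ s s₁ s₂ ε : ℝ),
  1 ≤ K → 0 < κ → 0 < s → 0 < s₁ →
  s₁ < s₂ → s₂ ≤ 1 → 0 < ε → ∃ Q₀ : ℕ, ∀ Q : ℕ, Q₀ ≤ Q → ∃ X₀ : ℝ, ∀ X : ℝ, X₀ ≤ X →
    ∀ a : ℕ → ℝ, (∀ m, |a m| ≤ 1) →
    ∀ α : Qd t c → ℝ, (∀ z, |α z| ≤ 1) → (∀ z, α z ≠ 0 → s * X < (nm z : ℝ)) →
    |∑ e ∈ good t c K κ Q X, ∑ v ∈ cone X e.1 e.2, ∑ w ∈ cw X s₁ s₂ e.1 e.2,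
      α v * A w * ta χ a Q (dt v w)| ≤ ε * X * Q

/-- BTa -/
def S_BTa (t c : ℤ) (χ : DirichletCharacter ℂ f) : Prop := ∀ A : Qd t c → ℝ, (∀ z, |A z| ≤ 1) →
  Mrs A → Bta χ A

/-! ### The estimate for fixed `X` -/

open scoped Classical in
/-- PERa: the estimate for fixed `X`, with complex coefficients `u p` -/
def S_PERa (t c : ℤ) (χ : DirichletCharacter ℂ f) : Prop := ∀ (K : ℕ) (κ : ℝ) (Q : ℕ) (X : ℝ)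
  (A : Type) (d₁ d₂ : A → ℂ) (lab : Qd t c → A)
  (ϖ : ℕ → Qd t c) (r : ℕ → ℤ) (u : ℕ → ℂ) (ζ₁ ζ₂ : ℕ → Tr A → ℕ × ℕ × ℕ × ℕ → ℝ), 1 ≤ K →
  0 < κ → 1 ≤ Q → f * (K * Q : ℝ) ≤ X →
  (∀ p ∈ PQ χ Q, nm (ϖ p) = p ∧ lat p (r p) (ϖ p) ∧ (p : ℤ) ∣ r p ^ 2 - t * r p + c) →
  (∀ e ∈ good t c K κ Q X, ∀ p ∈ PQ χ Q,
    (((ζ₁ p (TT lab X e) (res p e) : ℝ) : ℂ) + Complex.I * ((ζ₂ p (TT lab X e) (res p e) : ℝ) : ℂ) =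
      (((p : ℝ) + 1) / (2 * Q) : ℝ) * ∑ z ∈ cone X e.1 e.2, ∑ w ∈ cone X e.1 e.2,
        (if dt z w = p ∧ lat p (r p) z then d₁ (lab z) * d₂ (lab w) else 0)) ∧
    (((av p (ζ₁ p) (TT lab X e) : ℝ) : ℂ) + Complex.I * ((av p (ζ₂ p) (TT lab X e) : ℝ) : ℂ) =
      (1 / (2 * (Q : ℝ)) : ℝ) * ∑ z ∈ cone X e.1 e.2, ∑ w ∈ cone X e.1 e.2,
        (if dt z w = p then d₁ (lab z) * d₂ (lab w) else 0))) →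
  ‖∑ p ∈ PQ χ Q, ((Real.log p * ((p : ℝ) + 1) : ℝ) : ℂ) * (u p *
      ∑ e ∈ (dedge t c (X / p)).filter (InG K κ Q X (ϖ p)),
        d₁ (lab (ϖ p * e.1)) * d₂ (lab (ϖ p * e.2)))‖ ≤
    2 * Q * ∑ e ∈ edge t c (X / (K * Q)),
      (|∑ p ∈ PQ χ Q, Real.log p *
          (((u p).re * ζ₁ p (TT lab X e) (res p e) - (u p).im * ζ₂ p (TT lab X e) (res p e)) -
            av p (fun T y => (u p).re * ζ₁ p T y - (u p).im * ζ₂ p T y) (TT lab X e))| +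
        |∑ p ∈ PQ χ Q, Real.log p *
          (((u p).re * ζ₂ p (TT lab X e) (res p e) + (u p).im * ζ₁ p (TT lab X e) (res p e)) -
            av p (fun T y => (u p).re * ζ₂ p T y + (u p).im * ζ₁ p T y) (TT lab X e))|) +
    ‖∑ e ∈ good t c K κ Q X, ∑ v ∈ cone X e.1 e.2, ∑ w ∈ cone X e.1 e.2,
      d₁ (lab v) * d₂ (lab w) * (u (dt v w).toNat * (th χ Q (dt v w) : ℂ))‖

/-- AVXa: the mean over the primes of `PQ χ Q`, for most scales, for arbitrary functions -/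
def S_AVXa (t c : ℤ) (χ : DirichletCharacter ℂ f) : Prop := ∀ (N : ℕ)
  (F₁ F₂ : Qd t c → ℂ), Cm N F₁ → Cm N F₂ → ∀ q : ℕ, 1 ≤ q →
  (∀ β : Qd t c, Bta χ (cl q β (fun z => (F₂ z).re)) ∧ Bta χ (cl q β (fun z => (F₂ z).im))) →
  ∀ R : Qd t c → Qd t c → Prop, Rel q R → ∀ (s₁ s₂ s₃ s₄ : ℝ), 0 < s₁ → s₁ < s₂ → s₂ ≤ 1 →
  0 < s₃ → s₃ < s₄ → s₄ ≤ 1 → ∀ ε : ℝ, 0 < ε → ∀ Q₁ : ℕ, ∃ Q₂ N₀ : ℕ, ∀ N' : ℕ, N₀ ≤ N' →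
    ∃ Q : ℕ, Q₁ ≤ Q ∧ Q ≤ Q₂ ∧ ∑ X ∈ Icc 1 N', 1 / (X : ℝ) ^ 2 *
      ‖∑ p ∈ PQ χ Q, ((Real.log p * ((p : ℝ) + 1) : ℝ) : ℂ) *
        AG (g2 F₁ F₂ R) s₁ s₂ s₃ s₄ ((X : ℝ) / p)‖ ≤ ε * Q * Real.log N'

/-- MAINa: the means are small at almost all scales, for arbitrary functions -/
def S_MAINa (t c : ℤ) (χ : DirichletCharacter ℂ f) : Prop := ∀ (N : ℕ)
  (F₁ F₂ : Qd t c → ℂ), Cm N F₁ → Cm N F₂ → ∀ q : ℕ, 1 ≤ q →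
  (∀ β : Qd t c, Bta χ (cl q β (fun z => (F₂ z).re)) ∧ Bta χ (cl q β (fun z => (F₂ z).im))) →
  ∀ R : Qd t c → Qd t c → Prop, Rel q R → ∀ (s₁ s₂ s₃ s₄ : ℝ), 0 < s₁ → s₁ < s₂ → s₂ ≤ 1 →
  0 < s₃ → s₃ < s₄ → s₄ ≤ 1 → ∀ ε : ℝ, 0 < ε → ∃ N₀ : ℕ, ∀ N' : ℕ, N₀ ≤ N' →
    ∑ X ∈ Icc 1 N', 1 / (X : ℝ) ^ 2 * ‖AG (g2 F₁ F₂ R) s₁ s₂ s₃ s₄ X‖ ≤ ε * Real.log N'

end Pool.Agent.N912.EL
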