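import Pool.Agent.N912.EL.Stm
import Pool.Agent.N912.HL.H5

/-!
Project EL (helper912), statements, second part: Halasz's theorem for arbitrary completely
multiplicative functions of the elements of a quadratic order (not only of the norm), and the
labels of the factorisations.
-/

set_option autoImplicit false

namespace Pool.Agent.N912.EL

open Finset Filter
open Pool.Agent.W78.GA (Qd nm prim dt ip lat ball)
open Pool.Agent.W78.EG
open Pool.Agent.H304R3.HK (Lg)
open Pool.Agent.W584.EG (rr)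
open Pool.Agent.N912.HL (gg)

/-- completely multiplicative functions, equal to `1` at the units, of absolute value at most `1` -/
structure MG {t c : ℤ} (G : Qd t c → ℂ) : Prop where
  mul : ∀ z w : Qd t c, z ≠ 0 → w ≠ 0 → G (z * w) = G z * G w
  unit : ∀ u : Qd t c, nm u = 1 → G u = 1
  le : ∀ z, ‖G z‖ ≤ 1

/-- LGK: the logarithmic derivative -/
def S_LGK (t c : ℤ) : Prop := ∀ G : Qd t c → ℂ, MG G → ∃ g : ℕ → ℂ, Lg (aL G) g

/-- `F` is not close to a character with values in the `N`-th roots of unity -/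
def FarK (t c : ℤ) (N : ℕ) (F : Qd t c → ℂ) : Prop := ∀ (M : ℕ) (φ : Qd t c → ℂ), 1 ≤ M →
  HCh M φ → (∀ z, φ z ≠ 0 → φ z ^ N = 1) → ¬ Summable (gg (rr t c) (aL (fun z => F z * φ z)) 0 0)

/-- APK: Halasz's theorem -/
def S_APK (t c : ℤ) : Prop := ∀ (N : ℕ) (F : Qd t c → ℂ), 1 ≤ N → MG F → (∀ z, F z ^ N = 1) →
  FarK t c N F → Apd N F

/-- characters modulo `M` of the Gaussian integers, trivial on the units -/
structure GCh (M : ℕ) (φ : GaussianInt → ℂ) : Prop where
  per : ∀ z w : GaussianInt, (M : GaussianInt) ∣ z - w → φ z = φ w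
  mul : ∀ z w : GaussianInt, φ (z * w) = φ z * φ w
  one : φ 1 = 1
  unit : ∀ u : GaussianInt, IsUnit u → φ u = 1
  ne : ∀ z : GaussianInt, φ z ≠ 0 ↔ IsCoprime z (M : GaussianInt)

open scoped Classical in
/-- far from the characters on the Gaussian primes -/
def FarG (F : GaussianInt → ℂ) : Prop := ∀ (M : ℕ) (φ : GaussianInt → ℂ), 1 ≤ M → GCh M φ →
  ¬ Summable (fun π : GaussianInt => if Prime π ∧ F π ≠ φ π then 1 / (π.norm : ℝ) else 0)

/-- the Gaussian integer of an element of `Qd 0 1` -/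
def tg (z : Qd 0 1) : GaussianInt := ⟨z.re, z.im⟩

/-- FARG: comparison of the two conditions -/
def S_FARG : Prop := ∀ (N : ℕ) (F : GaussianInt → ℂ), 1 ≤ N →
  (∀ z w : GaussianInt, z ≠ 0 → w ≠ 0 → F (z * w) = F z * F w) →
  (∀ u : GaussianInt, IsUnit u → F u = 1) → (∀ z, F z ^ N = 1) → FarG F →
  FarK 0 1 N (fun z => F (tg z))

/-- completely additive functions, zero at the units -/
structure AddK {t c : ℤ} {A : Type} [AddCommGroup A] (H : Qd t c → A) : Prop where
  mul : ∀ z w : Qd t c, z ≠ 0 → w ≠ 0 → H (z * w) = H z + H w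
  unit : ∀ u : Qd t c, nm u = 1 → H u = 0

/-- UNQ: the pairs of vectors of a factorisation are unique up to units -/
def S_UNQ (t c : ℤ) : Prop := ∀ v w v' w' : Qd t c, dt v w = 1 → dt v' w' = 1 → 0 < pp v w →
  0 < pp v' w' → nm v = nm v' → nm w = nm w' → ∃ u : Qd t c, nm u = 1 ∧ v' = u * v ∧ w' = u * w

/-- LAB: the labels of the factorisations -/
def S_LAB (t c : ℤ) : Prop := ∀ (A : Type) [AddCommGroup A] (H₁ H₂ : Qd t c → A), AddK H₁ →
  AddK H₂ → ∃ Φ : ℕ × ℕ → A, ∀ v w : Qd t c, dt v w = 1 → 0 < pp v w →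
    Φ (nm v, nm w) = H₁ v + H₂ w

/-- STAR: aperiodicity is preserved by conjugation -/
def S_STAR (t c : ℤ) : Prop := ∀ (N : ℕ) (F : Qd t c → ℂ), Apd N F → Apd N (fun z => F (star z))

end Pool.Agent.N912.EL
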