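import Pool.Agent.N912.EL.Avx1

/-!
Project EL (helper912): the mean over the primes for arbitrary completely multiplicative functions,
part 2 (extension of W940.EG.Avx).
-/

set_option autoImplicit false

namespace Pool.Agent.N912.EL

open Finset Filter
open Pool.Agent.W78.GA (Qd nm prim dt ip lat ball pball edge dedge nm_castR nm_cast mem_ball mem_pball)
open Pool.Agent.W78.EC (Tr av)
open Pool.Agent.W251.GX (Cm)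
open Pool.Agent.W78.EG
open Pool.Agent.W940.EG

variable {t c : ℤ} {f : ℕ} {χ : DirichletCharacter ℂ f}

theorem avxa (hF : Fd t c f χ) (hz : S_ZX t c χ) (hp : S_PERa t c χ) (hd : S_DCP t c χ)
    (hl : S_LOSS t c χ) (hc : S_PCNT χ) : S_AVXa t c χ := by
  classical
  intro N F₁ F₂ c1 c2 q hq hBt R hR s₁ s₂ s₃ s₄ hs₁ hs₁₂ hs₂ hs₃ hs₃₄ hs₄ ε hε Q₁'
  obtain ⟨c₀, C, hc0, Qc, hQc⟩ := hc
  obtain ⟨nC, hnC⟩ : ∃ nC : ℝ, nC = ((Cs q).card : ℝ) := ⟨_, rfl⟩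
  have hnC0 : 0 ≤ nC := by rw [hnC]; exact Nat.cast_nonneg _
  obtain ⟨εD, hεD⟩ : ∃ x : ℝ, x = ε / (16 * (nC + 1)) := ⟨_, rfl⟩
  obtain ⟨εB, hεB⟩ : ∃ x : ℝ, x = ε / (128 * (nC + 1)) := ⟨_, rfl⟩
  obtain ⟨εL, hεL⟩ : ∃ x : ℝ, x = ε / (32 * (|C| + 1)) := ⟨_, rfl⟩
  have hεD0 : 0 < εD := by rw [hεD]; positivity
  have hεB0 : 0 < εB := by rw [hεB]; positivity
  have hεL0 : 0 < εL := by rw [hεL]; positivity
  obtain ⟨s, hs⟩ : ∃ s : ℝ, s = min s₁ s₃ := ⟨_, rfl⟩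
  have hs0 : 0 < s := by rw [hs]; exact lt_min hs₁ hs₃
  have hss1 : s ≤ s₁ := by rw [hs]; exact min_le_left _ _
  have hss3 : s ≤ s₃ := by rw [hs]; exact min_le_right _ _
  obtain ⟨K₀, hK₀⟩ := hl s εL hs0 hεL0
  obtain ⟨K, hKd⟩ : ∃ K : ℕ, K = max K₀ 1 := ⟨_, rfl⟩
  have hK : 1 ≤ K := by rw [hKd]; exact le_max_right _ _
  obtain ⟨κ, hκ, hκ'⟩ := hK₀ K (by rw [hKd]; exact le_max_left _ _)
  obtain ⟨QL, hQL⟩ := hκ' κ hκ le_rfl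
  obtain ⟨B, hB⟩ := hz K κ hK hκ
  obtain ⟨QB, hQB⟩ := unif2 (Cs q) (fun k Q X => ∀ a : ℕ → ℝ, (∀ m, |a m| ≤ 1) → ∀ α : Qd t c → ℝ, (∀ z, |α z| ≤ 1) →
      (∀ z, α z ≠ 0 → s₁ * X < (nm z : ℝ)) →
      |∑ e ∈ good t c K κ Q X, ∑ v ∈ cone X e.1 e.2, ∑ w ∈ cw X s₃ s₄ e.1 e.2,
        α v * cl q (rp k) (fun z => (F₂ z).re) w * ta χ a Q (dt v w)| ≤ εB * X * Q ∧
      |∑ e ∈ good t c K κ Q X, ∑ v ∈ cone X e.1 e.2, ∑ w ∈ cw X s₃ s₄ e.1 e.2,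
        α v * cl q (rp k) (fun z => (F₂ z).im) w * ta χ a Q (dt v w)| ≤ εB * X * Q) (by
    intro k _
    obtain ⟨Qa, hQa⟩ := (hBt (rp k)).1 K κ s₁ s₃ s₄ εB hK hκ hs₁ hs₃ hs₃₄ hs₄ hεB0
    obtain ⟨Qb, hQb⟩ := (hBt (rp k)).2 K κ s₁ s₃ s₄ εB hK hκ hs₁ hs₃ hs₃₄ hs₄ hεB0
    refine ⟨max Qa Qb, fun Q hQ => ?_⟩
    obtain ⟨Xa, hXa⟩ := hQa Q ((le_max_left _ _).trans hQ)
    obtain ⟨Xb, hXb⟩ := hQb Q ((le_max_right _ _).trans hQ)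
    exact ⟨max Xa Xb, fun X hX a a0 α a1 a2 => ⟨hXa X ((le_max_left _ _).trans hX) a a0 α a1 a2,
      hXb X ((le_max_right _ _).trans hX) a a0 α a1 a2⟩⟩)
  obtain ⟨Q₁, hQ₁⟩ : ∃ Q₁ : ℕ, Q₁ = Q₁' + Qc + QL + QB + (⌊(K : ℝ) / κ⌋₊ + 1) + q + 1 :=
    ⟨_, rfl⟩
  obtain ⟨Q₂, X₀, N₀, hD⟩ := hd (Lab N q) K (B + B) εD hK hεD0 Q₁
  -- thresholds
  have hXL : ∀ Q : ℕ, ∃ X₁ : ℝ, Q₁ ≤ Q → ∀ X : ℝ, X₁ ≤ X → ∀ p ∈ PQ χ Q, ∀ π : Qd t c, nm π = p →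
    (((dedge t c (X / p)).filter (fun e => 0 < pp e.1 e.2 ∧ s * (X / p) < (nm e.1 : ℝ) ∧
      s * (X / p) < (nm e.2 : ℝ) ∧ ¬ InG K κ Q X π e)).card : ℝ) ≤ εL * (X / p) := by
    intro Q
    by_cases hQ : Q₁ ≤ Q
    · obtain ⟨X₁, hX₁⟩ := hQL Q (by omega)
      exact ⟨X₁, fun _ => hX₁⟩
    · exact ⟨0, fun h => absurd h hQ⟩
  have hXB : ∀ Q : ℕ, ∃ X₁ : ℝ, Q₁ ≤ Q → ∀ X : ℝ, X₁ ≤ X → ∀ k ∈ Cs q,
      ∀ a : ℕ → ℝ, (∀ m, |a m| ≤ 1) → ∀ α : Qd t c → ℝ,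
      (∀ z, |α z| ≤ 1) → (∀ z, α z ≠ 0 → s₁ * X < (nm z : ℝ)) →
      |∑ e ∈ good t c K κ Q X, ∑ v ∈ cone X e.1 e.2, ∑ w ∈ cw X s₃ s₄ e.1 e.2,
        α v * cl q (rp k) (fun z => (F₂ z).re) w * ta χ a Q (dt v w)| ≤ εB * X * Q ∧
      |∑ e ∈ good t c K κ Q X, ∑ v ∈ cone X e.1 e.2, ∑ w ∈ cw X s₃ s₄ e.1 e.2,
        α v * cl q (rp k) (fun z => (F₂ z).im) w * ta χ a Q (dt v w)| ≤ εB * X * Q := by
    intro Q
    by_cases hQ : Q₁ ≤ Q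
    · obtain ⟨X₁, hX₁⟩ := hQB Q (by omega)
      exact ⟨X₁, fun _ => hX₁⟩
    · exact ⟨0, fun h => absurd h hQ⟩
  choose XL hXL' using hXL
  choose XB hXB' using hXB
  have hpi : ∀ p : ℕ, ∃ πr : Qd t c × ℤ, p.Prime → χ (p : ZMod f) = 1 →
      nm πr.1 = p ∧ lat p πr.2 πr.1 ∧ (p : ℤ) ∣ πr.2 ^ 2 - t * πr.2 + c := by
    intro p
    by_cases hp : p.Prime ∧ χ (p : ZMod f) = 1
    · obtain ⟨π, r, h⟩ := exists_pi hF hp.1 hp.2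
      exact ⟨(π, r), fun _ _ => h⟩
    · exact ⟨(0, 0), fun ha hb => absurd ⟨ha, hb⟩ hp⟩
  choose πr hπr using hpi
  obtain ⟨u, hu⟩ : ∃ u : ℕ → ℂ, u = fun p => (F₁ ((πr p).1) * F₂ ((πr p).1))⁻¹ := ⟨_, rfl⟩
  have hFne : ∀ p, ‖F₁ ((πr p).1) * F₂ ((πr p).1)‖ = 1 := by
    intro p
    rw [norm_mul, norm_F c1, norm_F c2, one_mul]
  have hun : ∀ p, ‖u p‖ ≤ 1 := by
    intro p
    rw [hu]
    simp only
    rw [norm_inv, hFne, inv_one]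
  have hu1 : ∀ p, u p * (F₁ ((πr p).1) * F₂ ((πr p).1)) = 1 := by
    intro p
    rw [hu]
    simp only
    refine inv_mul_cancel₀ (fun h => ?_)
    have := hFne p
    rw [h, norm_zero] at this
    exact zero_ne_one this
  have hure : ∀ p, |(u p).re| ≤ 1 := fun p => (Complex.abs_re_le_norm _).trans (hun p)
  have huim : ∀ p, |(u p).im| ≤ 1 := fun p => (Complex.abs_im_le_norm _).trans (hun p)
  have hab : ∀ a b x y : ℝ, |a| ≤ 1 → |b| ≤ 1 → |x| ≤ B → |y| ≤ B →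
      |a * x| ≤ B ∧ |b * y| ≤ B := by
    intro a b x y h1 h2 h3 h4
    rw [abs_mul, abs_mul]
    exact ⟨(mul_le_of_le_one_left (abs_nonneg _) h1).trans h3,
      (mul_le_of_le_one_left (abs_nonneg _) h2).trans h4⟩
  obtain ⟨X₁, hX₁⟩ : ∃ X₁ : ℕ, X₁ = X₀ + ∑ Q ∈ Icc Q₁ Q₂,
      (⌈XL Q⌉₊ + ⌈XB Q⌉₊ + f * (K * Q)) := ⟨_, rfl⟩
  have hX₁' : ∀ Q : ℕ, Q₁ ≤ Q → Q ≤ Q₂ → XL Q ≤ X₁ ∧ XB Q ≤ X₁ ∧ f * (K * Q : ℝ) ≤ X₁ := by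
    intro Q ha hb
    have h : ⌈XL Q⌉₊ + ⌈XB Q⌉₊ + f * (K * Q) ≤ X₁ := by
      have := single_le_sum (f := fun Q => ⌈XL Q⌉₊ + ⌈XB Q⌉₊ + f * (K * Q))
        (fun _ _ => Nat.zero_le _) (mem_Icc.2 ⟨ha, hb⟩)
      omega
    have h' : ((⌈XL Q⌉₊ : ℝ) + ⌈XB Q⌉₊ + f * (K * Q)) ≤ X₁ := by exact_mod_cast h
    have e1 := Nat.le_ceil (XL Q)
    have e2 := Nat.le_ceil (XB Q)
    have e3 : (0 : ℝ) ≤ ⌈XL Q⌉₊ := Nat.cast_nonneg _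
    have e4 : (0 : ℝ) ≤ ⌈XB Q⌉₊ := Nat.cast_nonneg _
    have e5 : (0 : ℝ) ≤ f * (K * Q : ℝ) := by positivity
    exact ⟨by linarith, by linarith, by linarith⟩
  obtain ⟨SX, hSX⟩ : ∃ SX : ℕ → ℕ → ℂ, SX = fun (Q X : ℕ) => ∑ p ∈ PQ χ Q,
      ((Real.log p * ((p : ℝ) + 1) : ℝ) : ℂ) * AG (g2 F₁ F₂ R) s₁ s₂ s₃ s₄ ((X : ℝ) / p) :=
    ⟨_, rfl⟩
  obtain ⟨M, hM⟩ : ∃ M : ℝ, M = ∑ X ∈ Icc 1 X₁, 1 / (X : ℝ) ^ 2 *
    ∑ Q ∈ Icc Q₁ Q₂, ‖SX Q X‖ := ⟨_, rfl⟩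
  have hM0 : 0 ≤ M := by
    rw [hM]
    exact sum_nonneg fun X _ => mul_nonneg (by positivity)
      (sum_nonneg fun _ _ => norm_nonneg _)
  refine ⟨Q₂, max (max N₀ 3) ⌈Real.exp (M / (ε / 4))⌉₊, fun N' hN => ?_⟩
  have hN0 : N₀ ≤ N' := le_trans (le_trans (le_max_left _ _) (le_max_left _ _)) hN
  have hN3 : 3 ≤ N' := le_trans (le_trans (le_max_right _ _) (le_max_left _ _)) hN
  have hNR : (0 : ℝ) < N' := by
    have : (3 : ℝ) ≤ N' := by exact_mod_cast hN3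
    linarith
  have hNe : M / (ε / 4) ≤ Real.log N' := by
    rw [Real.le_log_iff_exp_le hNR]
    have := le_trans (le_max_right _ _) hN
    exact (Nat.le_ceil _).trans (by exact_mod_cast this)
  have hlogN : 1 ≤ Real.log N' := by
    rw [Real.le_log_iff_exp_le hNR]
    have h1 : (3 : ℝ) ≤ N' := by exact_mod_cast hN3
    have h2 := Real.exp_one_lt_d9
    linarith
  have hMlog : M ≤ ε / 4 * Real.log N' := by
    rw [div_le_iff₀ (by positivity)] at hNe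
    linarith
  obtain ⟨Q, hQ1, hQ2, hζ⟩ := hD N' hN0
    (fun X : ℕ => lb2 c1 c2 hq s₁ s₂ s₃ s₄ (X : ℝ))
  have hQpos : 1 ≤ Q := by omega
  have hQR : (1 : ℝ) ≤ Q := by exact_mod_cast hQpos
  have hKQ : (K : ℝ) / κ < Q := by
    have h := Nat.lt_floor_add_one ((K : ℝ) / κ)
    have h' : ⌊(K : ℝ) / κ⌋₊ + 1 ≤ Q := by omega
    have h'' : ((⌊(K : ℝ) / κ⌋₊ : ℝ) + 1) ≤ Q := by exact_mod_cast h'
    linarith
  refine ⟨Q, by omega, hQ2, ?_⟩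
  have hex : ∀ k : ℕ × ℕ, ∃ ζ₁ ζ₂ : ℕ → Tr (Lab N q) → ℕ × ℕ × ℕ × ℕ → ℝ,
      (∀ p T y, |ζ₁ p T y| ≤ B ∧ |ζ₂ p T y| ≤ B) ∧
      ∀ (lab : Qd t c → Lab N q) (X : ℝ), f * (K * Q : ℝ) ≤ X → ∀ e ∈ good t c K κ Q X, ∀ p ∈ PQ χ Q,
      (((ζ₁ p (TT lab X e) (res p e) : ℝ) : ℂ) + Complex.I * ((ζ₂ p (TT lab X e) (res p e) : ℝ) : ℂ) =
        (((p : ℝ) + 1) / (2 * Q) : ℝ) * ∑ z ∈ cone X e.1 e.2, ∑ w ∈ cone X e.1 e.2,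
          (if dt z w = p ∧ lat p ((πr p).2) z then d1 R k (lab z) * d2 k (lab w) else 0)) ∧
      (((av p (ζ₁ p) (TT lab X e) : ℝ) : ℂ) + Complex.I * ((av p (ζ₂ p) (TT lab X e) : ℝ) : ℂ) =
        (1 / (2 * (Q : ℝ)) : ℝ) * ∑ z ∈ cone X e.1 e.2, ∑ w ∈ cone X e.1 e.2,
          (if dt z w = p then d1 R k (lab z) * d2 k (lab w) else 0)) := by
    intro k
    obtain ⟨ζ₁, ζ₂, h1, h2⟩ := hB Q hKQ (Lab N q) (d1 R k) (d2 k) (norm_d1 c1.pos R k)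
      (norm_d2 c1.pos k) (fun p => (πr p).2)
    refine ⟨ζ₁, ζ₂, h1, fun lab X hX e he p hpm => ?_⟩
    obtain ⟨h3, h4⟩ := h2 lab X hX e he p hpm
    refine ⟨?_, h4⟩
    rw [h3]
  choose ζ₁ ζ₂ hζb hζi using hex
  obtain ⟨D1, hD1⟩ : ∃ D1 : ℕ × ℕ → ℕ → ℝ, D1 = fun (k : ℕ × ℕ) (X : ℕ) =>
      ∑ e ∈ edge t c ((X : ℝ) / (K * Q)), |∑ p ∈ PQ χ Q, Real.log p *
        (((u p).re * ζ₁ k p (TT (lb2 c1 c2 hq s₁ s₂ s₃ s₄ (X : ℝ)) X e) (res p e) -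
          (u p).im * ζ₂ k p (TT (lb2 c1 c2 hq s₁ s₂ s₃ s₄ (X : ℝ)) X e) (res p e)) -
          av p (fun T y => (u p).re * ζ₁ k p T y - (u p).im * ζ₂ k p T y)
            (TT (lb2 c1 c2 hq s₁ s₂ s₃ s₄ (X : ℝ)) X e))| := ⟨_, rfl⟩
  obtain ⟨D2, hD2⟩ : ∃ D2 : ℕ × ℕ → ℕ → ℝ, D2 = fun (k : ℕ × ℕ) (X : ℕ) =>
      ∑ e ∈ edge t c ((X : ℝ) / (K * Q)), |∑ p ∈ PQ χ Q, Real.log p *
        (((u p).re * ζ₂ k p (TT (lb2 c1 c2 hq s₁ s₂ s₃ s₄ (X : ℝ)) X e) (res p e) +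
          (u p).im * ζ₁ k p (TT (lb2 c1 c2 hq s₁ s₂ s₃ s₄ (X : ℝ)) X e) (res p e)) -
          av p (fun T y => (u p).re * ζ₂ k p T y + (u p).im * ζ₁ k p T y)
            (TT (lb2 c1 c2 hq s₁ s₂ s₃ s₄ (X : ℝ)) X e))| := ⟨_, rfl⟩
  have hD1s : ∀ k, ∑ X ∈ Ioc X₀ N', 1 / (X : ℝ) ^ 2 * D1 k X ≤ εD * Real.log N' := by
    intro k
    rw [hD1]
    exact hζ (fun p T y => (u p).re * ζ₁ k p T y - (u p).im * ζ₂ k p T y) (fun p T y => by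
      obtain ⟨h1, h2⟩ := hab _ _ _ _ (hure p) (huim p) (hζb k p T y).1 (hζb k p T y).2
      exact (abs_sub _ _).trans (add_le_add h1 h2))
  have hD2s : ∀ k, ∑ X ∈ Ioc X₀ N', 1 / (X : ℝ) ^ 2 * D2 k X ≤ εD * Real.log N' := by
    intro k
    rw [hD2]
    exact hζ (fun p T y => (u p).re * ζ₂ k p T y + (u p).im * ζ₁ k p T y) (fun p T y => by
      obtain ⟨h1, h2⟩ := hab _ _ _ _ (hure p) (huim p) (hζb k p T y).2 (hζb k p T y).1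
      exact (abs_add_le _ _).trans (add_le_add h1 h2))
  obtain ⟨DX, hDX⟩ : ∃ DX : ℕ → ℝ, DX = fun X => ∑ k ∈ Cs q, (D1 k X + D2 k X) := ⟨_, rfl⟩
  have hDX0 : ∀ X, 0 ≤ DX X := by
    intro X
    rw [hDX, hD1, hD2]
    exact sum_nonneg fun k _ => add_nonneg (sum_nonneg fun _ _ => abs_nonneg _)
      (sum_nonneg fun _ _ => abs_nonneg _)
  have hDXs : ∑ X ∈ Ioc X₀ N', 1 / (X : ℝ) ^ 2 * DX X ≤ nC * (2 * (εD * Real.log N')) := by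
    have h1 : ∑ X ∈ Ioc X₀ N', 1 / (X : ℝ) ^ 2 * DX X =
        ∑ k ∈ Cs q, (∑ X ∈ Ioc X₀ N', 1 / (X : ℝ) ^ 2 * D1 k X +
          ∑ X ∈ Ioc X₀ N', 1 / (X : ℝ) ^ 2 * D2 k X) := by
      simp only [← sum_add_distrib]
      rw [sum_comm]
      refine sum_congr rfl fun X _ => ?_
      rw [hDX]
      simp only
      rw [mul_sum]
      refine sum_congr rfl fun k _ => ?_
      ring
    rw [h1]
    have h2 : ∀ k ∈ Cs q, (∑ X ∈ Ioc X₀ N', 1 / (X : ℝ) ^ 2 * D1 k X +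
          ∑ X ∈ Ioc X₀ N', 1 / (X : ℝ) ^ 2 * D2 k X) ≤ 2 * (εD * Real.log N') := by
      intro k _
      linarith [hD1s k, hD2s k]
    refine (sum_le_sum h2).trans (le_of_eq ?_)
    rw [sum_const, nsmul_eq_mul, hnC]
  obtain ⟨Θ, hΘ⟩ : ∃ Θ : ℝ, Θ = ∑ p ∈ PQ χ Q, Real.log p := ⟨_, rfl⟩
  have hΘ0 : 0 ≤ Θ := by
    rw [hΘ]
    exact sum_nonneg fun p hp => log_nonneg_PQ hp
  have hΘC : Θ ≤ |C| * Q := by
    have h1 := (hQc Q (by omega)).2.2.2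
    rw [← hΘ] at h1
    exact h1.trans (mul_le_mul_of_nonneg_right (le_abs_self C) (by positivity))
  -- large X
  have hlarge : ∀ X : ℕ, X₁ < X → |‖SX Q X‖| ≤
      2 * Q * DX X + (8 * nC * εB * Q + 2 * εL * Θ) * X := by
    intro X hX
    obtain ⟨e1, e2, e3⟩ := hX₁' Q hQ1 hQ2
    have hXR : (X₁ : ℝ) ≤ X := by exact_mod_cast hX.le
    have h := per_X2A hF hp c1 c2 hq hR (K := K) (κ := κ) (Q := Q) (s := s) (s₁ := s₁) (s₂ := s₂)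
      (s₃ := s₃) (s₄ := s₄) (X := (X : ℝ)) (ε₃ := εB) (ε' := εL) hs₁ hs₃ hss1 hss3 hK hκ hQpos
      (by omega) (e3.trans hXR) (fun p => (πr p).1) (fun p => (πr p).2)
      (fun p hp => hπr p (PQ_mem hp).2.2.1 (PQ_mem hp).2.2.2) u hun (fun p _ => hu1 p) ζ₁ ζ₂
      (fun k _ e he p hpm => hζi k _ X (e3.trans hXR) e he p hpm)
      (hXB' Q hQ1 X (e2.trans hXR)) hεL0.le (hXL' Q hQ1 X (e1.trans hXR))
    rw [abs_of_nonneg (norm_nonneg _), hSX]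
    refine h.trans (le_of_eq ?_)
    rw [← hΘ, ← hnC, hDX, hD1, hD2]
    simp only [sum_add_distrib]
    ring
  have hsum := Pool.Agent.W78.EC.Fx.sum_split (fun X => ‖SX Q X‖) DX (fun X => ∑ Q ∈ Icc Q₁ Q₂, ‖SX Q X‖)
    (X₀ := X₀) (X₁ := X₁) (N := N') (a := 2 * Q) (b := 8 * nC * εB * Q + 2 * εL * Θ)
    (Λ := nC * (2 * (εD * Real.log N')))
    (fun X => by
      rw [abs_of_nonneg (norm_nonneg _)]
      exact single_le_sum (f := fun Q => ‖SX Q X‖) (fun _ _ => norm_nonneg _)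
        (mem_Icc.2 ⟨hQ1, hQ2⟩))
    hlarge hDX0 (by positivity) (by positivity) (by rw [hX₁]; exact Nat.le_add_right _ _) hDXs
  rw [← hM] at hsum
  have hgoal : ∑ X ∈ Icc 1 N', 1 / (X : ℝ) ^ 2 * ‖∑ p ∈ PQ χ Q,
      ((Real.log p * ((p : ℝ) + 1) : ℝ) : ℂ) *
        AG (g2 F₁ F₂ R) s₁ s₂ s₃ s₄ ((X : ℝ) / p)‖ =
      ∑ X ∈ Icc 1 N', 1 / (X : ℝ) ^ 2 * ‖SX Q X‖ := by rw [hSX]
  rw [hgoal]
  refine (le_abs_self _).trans (hsum.trans ?_)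
  have hQl : 0 ≤ (Q : ℝ) * Real.log N' := by positivity
  have c1 : nC * εD ≤ ε / 16 := by
    rw [hεD, mul_div_assoc', div_le_div_iff₀ (by positivity) (by norm_num)]
    linarith
  have c2 : nC * εB ≤ ε / 128 := by
    rw [hεB, mul_div_assoc', div_le_div_iff₀ (by positivity) (by norm_num)]
    linarith
  have c3 : εL * |C| ≤ ε / 32 := by
    have := abs_nonneg C
    rw [hεL, div_mul_eq_mul_div, div_le_div_iff₀ (by positivity) (by norm_num)]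
    linarith
  have b1 : 2 * (Q : ℝ) * (nC * (2 * (εD * Real.log N'))) ≤ ε / 4 * (Q * Real.log N') := by
    have := mul_le_mul_of_nonneg_right c1 hQl
    calc 2 * (Q : ℝ) * (nC * (2 * (εD * Real.log N'))) = 4 * (nC * εD * (Q * Real.log N')) := by
          ring
      _ ≤ 4 * (ε / 16 * (Q * Real.log N')) := by linarith
      _ = ε / 4 * (Q * Real.log N') := by ring
  have b2 : 8 * nC * εB * Q + 2 * εL * Θ ≤ ε / 8 * Q := by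
    have h1 := mul_le_mul_of_nonneg_right c2 (by positivity : (0 : ℝ) ≤ Q)
    have h2 : εL * Θ ≤ εL * (|C| * Q) := mul_le_mul_of_nonneg_left hΘC hεL0.le
    have h3 := mul_le_mul_of_nonneg_right c3 (by positivity : (0 : ℝ) ≤ Q)
    calc 8 * nC * εB * Q + 2 * εL * Θ ≤ 8 * (nC * εB * Q) + 2 * (εL * (|C| * Q)) := by linarith
      _ = 8 * (nC * εB * Q) + 2 * (εL * |C| * Q) := by ring
      _ ≤ 8 * (ε / 128 * Q) + 2 * (ε / 32 * Q) := by linarith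
      _ = ε / 8 * Q := by ring
  have b3 : (8 * nC * εB * Q + 2 * εL * Θ) * (1 + Real.log N') ≤ ε / 4 * (Q * Real.log N') := by
    calc (8 * nC * εB * Q + 2 * εL * Θ) * (1 + Real.log N') ≤
        ε / 8 * Q * (2 * Real.log N') :=
          mul_le_mul b2 (by linarith) (by linarith) (by positivity)
      _ = ε / 4 * (Q * Real.log N') := by ring
  have b4 : M ≤ ε / 4 * (Q * Real.log N') := by
    refine hMlog.trans (mul_le_mul_of_nonneg_left ?_ (by positivity))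
    exact le_mul_of_one_le_left (by linarith) hQR
  have b5 : 0 ≤ ε * (Q * Real.log N') := by positivity
  have b6 : ε * Q * Real.log N' = ε * (Q * Real.log N') := by ring
  linarith


end Pool.Agent.N912.EL
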