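import Pool.Agent.N912.EL.Gp
import Pool.Agent.N912.EL.Avx2
import Pool.Agent.N776.EL1
import Pool.Agent.N79.ELbes
import Pool.Agent.N498.ELlsa
import Pool.Agent.N475.EL4
import Pool.Agent.N821.EL5
import Pool.Agent.N348.EL.Psv
import Pool.Agent.N866.ELcore
import Pool.Agent.N400.EL.BTMA
import Pool.Agent.N756.EL.Sml
import Pool.Agent.N222.EL10
import Pool.Agent.N232.EL11

/-!
Project EL (helper912): assembly of the two-factor method for arbitrary completely multiplicative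
functions.
-/

set_option autoImplicit false

namespace Pool.Agent.N912.EL

open Pool.Agent.W78.GA (Qd)
open Pool.Agent.W78.EG
open Pool.Agent.W251.EG (hDG swcG lnG dtbG gg0G zxG bijG dcpG lossG pcntG regxG dcvG corrG scntG
  mrsxG cl_le mrs_cl cm_norm)

variable {t c : ℤ} {f : ℕ} {χ : DirichletCharacter ℂ f}

theorem lsaG (hF : Fd t c f χ) : S_LSa χ :=
  Pool.Agent.N498.EL.lsa hF (Pool.Agent.N776.EL1.ls4a χ)
    (Pool.Agent.N79.ELbes.bes hF (swcG hF)) (swcG hF)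

theorem ggaG (hF : Fd t c f χ) : S_GGa t c χ :=
  Pool.Agent.N821.EL.gga hF (lsaG hF) Pool.Agent.W52.EC.abel (Pool.Agent.W164.EG.psid (hDG hF))
    (Pool.Agent.N475.EL4.gvla hF) (Pool.Agent.W804.EG.mult hF) (dtbG hF)

theorem btmaG (hF : Fd t c f χ) : S_BTMa t c χ :=
  Pool.Agent.N400.EL.BTMA.btma hF
    (Pool.Agent.N866.EL.core hF (Pool.Agent.W131.EG.jb hF) (lnG hF) (dtbG hF))
    (Pool.Agent.N348.EL.psv hF) (Pool.Agent.W131.EG.jb hF) (lnG hF) (dtbG hF)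

theorem smlG (hF : Fd t c f χ) : S_SML t c χ :=
  Pool.Agent.N756.EL.sml hF (gg0G hF) (Pool.Agent.W131.EG.jb hF) (lnG hF) (dtbG hF)

/-- the bilinear estimate with arbitrary coefficients -/
theorem btaG (hF : Fd t c f χ) : S_BTa t c χ :=
  Pool.Agent.N222.EL10.bta hF (smlG hF) (ggaG hF) (btmaG hF) (lnG hF) (dtbG hF)

theorem avxaG (hF : Fd t c f χ) : S_AVXa t c χ :=
  avxa hF (zxG hF) (Pool.Agent.N232.EL.pera hF (bijG hF)) (dcpG hF) (lossG hF) (pcntG hF)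

theorem mainaG (hF : Fd t c f χ) : S_MAINa t c χ :=
  maina hF (avxaG hF) (regxG hF) (dcvG hF) (pcntG hF)

theorem btclG (hF : Fd t c f χ) (N : ℕ) (F : Qd t c → ℂ) (h : Apd N F) (q : ℕ) (β : Qd t c)
    (hq : 1 ≤ q) : Bta χ (cl q β (fun z => (F z).re)) ∧ Bta χ (cl q β (fun z => (F z).im)) := by
  obtain ⟨h4, h5⟩ := mrsxG hF N F h
  have h6 : ∀ z, |(F z).re| ≤ 1 := fun z =>
    (Complex.abs_re_le_norm _).trans (cm_norm h.cm z).le
  have h7 : ∀ z, |(F z).im| ≤ 1 := fun z =>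
    (Complex.abs_im_le_norm _).trans (cm_norm h.cm z).le
  exact ⟨btaG hF _ (cl_le h6 q β) (mrs_cl h4 hq β), btaG hF _ (cl_le h7 q β) (mrs_cl h5 hq β)⟩

theorem twLG (hF : Fd t c f χ) (hst : S_STAR t c) : S_TWL t c :=
  twL hF (mainaG hF) (corrG hF) (scntG hF) hst (btclG hF)

theorem tsLG (hF : Fd t c f χ) (hst : S_STAR t c) : S_TSL t c :=
  tsL (twLG hF hst) (Pool.Agent.W251.EG.tailc hF (Pool.Agent.W78.GA.sqb (hDG hF)) (corrG hF))

end Pool.Agent.N912.EL
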