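import Pool.Agent.W940.EG.Avx
import Pool.Agent.N912.EL.Stm

/-!
Project EL (helper912): the mean over the primes for arbitrary completely multiplicative functions,
part 1 (extension of W940.EG.Avx1, Avx2).
-/

set_option autoImplicit false

namespace Pool.Agent.N912.EL

open Finset Filter
open Pool.Agent.W78.GA (Qd nm prim dt ip lat ball pball edge dedge nm_castR nm_cast mem_ball mem_pball)
open Pool.Agent.W78.EC (Tr av)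
open Pool.Agent.W251.GX (Cm)
open Pool.Agent.W78.EG
open Pool.Agent.W940.EG

variable {t c : ℤ} {f : ℕ} {χ : DirichletCharacter ℂ f}

theorem G2_mulA {N : ℕ} {F₁ F₂ : Qd t c → ℂ} (c1 : Cm N F₁) (c2 : Cm N F₂)
    {q : ℕ} {R : Qd t c → Qd t c → Prop} (hR : Rel q R) {p : ℕ} (hp : p.Prime)
    (hpq : Nat.Coprime p q) {π : Qd t c} (hπ : nm π = p) {s₁ s₂ s₃ s₄ X : ℝ} (h0 : 0 ≤ s₁ * X)
    (h0' : 0 ≤ s₃ * X) (v w : Qd t c) :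
    G2 F₁ F₂ R s₁ s₂ s₃ s₄ X (π * v) (π * w) =
      F₁ π * F₂ π * G2 F₁ F₂ R s₁ s₂ s₃ s₄ (X / p) v w := by
  unfold G2
  have h1 : R (π * v) (π * w) ↔ R v w := hR.dil π v w (by rw [hπ]; exact hpq)
  rw [wF_mul c1 hp hπ h0, wF_mul c2 hp hπ h0']
  by_cases h : R v w
  · rw [if_pos (h1.mpr h), if_pos h]; ring
  · rw [if_neg (fun h' => h (h1.mp h')), if_neg h, mul_zero]

open scoped Classical in
/-- the loss for one prime -/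
theorem AG_splitA {N : ℕ} {F₁ F₂ : Qd t c → ℂ} (c1 : Cm N F₁) (c2 : Cm N F₂)
    {q : ℕ} (hq : 1 ≤ q) {R : Qd t c → Qd t c → Prop} (hR : Rel q R) {p : ℕ} (hp : p.Prime)
    (hpq : Nat.Coprime p q) {π : Qd t c} (hπ : nm π = p) {u : ℂ} (hu : u * (F₁ π * F₂ π) = 1)
    {s s₁ s₂ s₃ s₄ X : ℝ} (h0 : 0 ≤ s₁ * X) (h0' : 0 ≤ s₃ * X)
    (hs1 : s * X ≤ s₁ * X) (hs3 : s * X ≤ s₃ * X) {K : ℕ} {κ : ℝ} {Q : ℕ} {δ : ℝ}
    (hG : ∀ e, InG K κ Q X π e → 0 < pp e.1 e.2)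
    (hL : (((dedge t c (X / p)).filter (fun e => 0 < pp e.1 e.2 ∧ s * (X / p) < (nm e.1 : ℝ) ∧
      s * (X / p) < (nm e.2 : ℝ) ∧ ¬ InG K κ Q X π e)).card : ℝ) ≤ δ) :
    ‖AG (g2 F₁ F₂ R) s₁ s₂ s₃ s₄ (X / p) -
      u * ∑ k ∈ Cs q, ∑ e ∈ (dedge t c (X / p)).filter (InG K κ Q X π),
        d1 R k (lb2 c1 c2 hq s₁ s₂ s₃ s₄ X (π * e.1)) *
          d2 k (lb2 c1 c2 hq s₁ s₂ s₃ s₄ X (π * e.2))‖ ≤ δ := by
  have hp0 : (0 : ℝ) < p := by exact_mod_cast hp.pos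
  have hII : (dedge t c (X / p)).filter (InG K κ Q X π) =
      ((dedge t c (X / p)).filter (fun e => 0 < pp e.1 e.2)).filter (InG K κ Q X π) := by
    rw [filter_filter]
    exact filter_congr fun e _ => ⟨fun h => ⟨hG e h, h⟩, fun h => h.2⟩
  rw [sum_comm]
  simp only [sum_d c1 c2 hq hR, G2_mulA c1 c2 hR hp hpq hπ h0 h0']
  rw [hII, AG_eq, ← mul_sum, ← mul_assoc, hu, one_mul,
    ← sum_filter_add_sum_filter_not ((dedge t c (X / p)).filter (fun e => 0 < pp e.1 e.2))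
      (InG K κ Q X π), add_sub_cancel_left]
  refine (norm_sum_le _ _).trans (le_trans ?_ hL)
  have h1 : ∀ e ∈ ((dedge t c (X / p)).filter (fun e => 0 < pp e.1 e.2)).filter
      (fun e => ¬ InG K κ Q X π e),
      ‖G2 F₁ F₂ R s₁ s₂ s₃ s₄ (X / p) e.1 e.2‖ ≤
      if s * (X / p) < (nm e.1 : ℝ) ∧ s * (X / p) < (nm e.2 : ℝ) then (1 : ℝ) else 0 := by
    intro e _
    split_ifs with hc
    · exact norm_G2 c1 c2 _ _ _ _ _ _ _ _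
    · have ha : s * (X / p) ≤ s₁ * (X / p) := by
        rw [← mul_div_assoc, ← mul_div_assoc]
        exact div_le_div_of_nonneg_right hs1 hp0.le
      have hb : s * (X / p) ≤ s₃ * (X / p) := by
        rw [← mul_div_assoc, ← mul_div_assoc]
        exact div_le_div_of_nonneg_right hs3 hp0.le
      have hz : G2 F₁ F₂ R s₁ s₂ s₃ s₄ (X / p) e.1 e.2 = 0 := by
        unfold G2 wF
        by_cases h2 : s₁ * (X / p) < (nm e.1 : ℝ) ∧ (nm e.1 : ℝ) ≤ s₂ * (X / p)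
        · have h3 : ¬ (s₃ * (X / p) < (nm e.2 : ℝ) ∧ (nm e.2 : ℝ) ≤ s₄ * (X / p)) := by
            intro h3
            exact hc ⟨by linarith [h2.1], by linarith [h3.1]⟩
          rw [if_neg h3]
          simp
        · rw [if_neg h2]
          simp
      rw [hz, norm_zero]
  refine (sum_le_sum h1).trans ?_
  rw [sum_boole, filter_filter, filter_filter]
  refine le_of_eq ?_
  congr 2
  refine filter_congr fun e _ => ?_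
  tauto

/-- the bilinear term -/
theorem bilG (g : ℤ → ℝ) {N : ℕ} {F₁ F₂ : Qd t c → ℂ} (h1 : Cm N F₁) (h2 : Cm N F₂) {q : ℕ} (hq : 1 ≤ q)
    (R : Qd t c → Qd t c → Prop) {K : ℕ} {κ : ℝ} {Q : ℕ} {s₁ s₂ s₃ s₄ X ε₃ : ℝ} (k : ℕ × ℕ)
    (hc : k ∈ Cs q)
    (hBr : ∀ α : Qd t c → ℝ, (∀ z, |α z| ≤ 1) → (∀ z, α z ≠ 0 → s₁ * X < (nm z : ℝ)) →
      |∑ e ∈ good t c K κ Q X, ∑ v ∈ cone X e.1 e.2, ∑ w ∈ cw X s₃ s₄ e.1 e.2,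
        α v * cl q (rp k) (fun z => (F₂ z).re) w * g (dt v w)| ≤ ε₃)
    (hBi : ∀ α : Qd t c → ℝ, (∀ z, |α z| ≤ 1) → (∀ z, α z ≠ 0 → s₁ * X < (nm z : ℝ)) →
      |∑ e ∈ good t c K κ Q X, ∑ v ∈ cone X e.1 e.2, ∑ w ∈ cw X s₃ s₄ e.1 e.2,
        α v * cl q (rp k) (fun z => (F₂ z).im) w * g (dt v w)| ≤ ε₃) :
    ‖∑ e ∈ good t c K κ Q X, ∑ v ∈ cone X e.1 e.2, ∑ w ∈ cone X e.1 e.2,
      d1 R k (lb2 h1 h2 hq s₁ s₂ s₃ s₄ X v) * d2 k (lb2 h1 h2 hq s₁ s₂ s₃ s₄ X w) *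
        (g (dt v w) : ℂ)‖ ≤ 4 * ε₃ := by
  classical
  obtain ⟨D, hD⟩ : ∃ D : Qd t c → ℂ, D = fun v => d1 R k (lb2 h1 h2 hq s₁ s₂ s₃ s₄ X v) := ⟨_, rfl⟩
  have hDn : ∀ v, ‖D v‖ ≤ 1 := fun v => by rw [hD]; exact norm_d1 h1.pos R k _
  have hDw : ∀ v, D v ≠ 0 → s₁ * X < (nm v : ℝ) := by
    intro v hv
    by_contra hcon
    apply hv
    rw [hD]
    unfold d1 lb2 wF
    simp only
    rw [if_neg (fun h : s₁ * X < (nm v : ℝ) ∧ (nm v : ℝ) ≤ s₂ * X => hcon h.1)]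
    simp
  obtain ⟨a, ha⟩ : ∃ a : Qd t c → ℝ, a = fun v => (D v).re := ⟨_, rfl⟩
  obtain ⟨b, hb⟩ : ∃ b : Qd t c → ℝ, b = fun v => (D v).im := ⟨_, rfl⟩
  have ha1 : ∀ v, |a v| ≤ 1 := fun v => by
    rw [ha]; exact (Complex.abs_re_le_norm _).trans (hDn v)
  have hb1 : ∀ v, |b v| ≤ 1 := fun v => by
    rw [hb]; exact (Complex.abs_im_le_norm _).trans (hDn v)
  have ha2 : ∀ v, a v ≠ 0 → s₁ * X < (nm v : ℝ) := by
    intro v hv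
    refine hDw v (fun h => hv ?_)
    rw [ha]; simp only; rw [h]; rfl
  have hb2 : ∀ v, b v ≠ 0 → s₁ * X < (nm v : ℝ) := by
    intro v hv
    refine hDw v (fun h => hv ?_)
    rw [hb]; simp only; rw [h]; rfl
  have hDab : ∀ v, D v = (a v : ℂ) + Complex.I * (b v : ℂ) := by
    intro v
    rw [ha, hb]
    simp only
    rw [mul_comm]
    exact (Complex.re_add_im _).symm
  obtain ⟨r, hr⟩ : ∃ r : Qd t c → ℝ, r = cl q (rp k) (fun z => (F₂ z).re) := ⟨_, rfl⟩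
  obtain ⟨m, hm⟩ : ∃ m : Qd t c → ℝ, m = cl q (rp k) (fun z => (F₂ z).im) := ⟨_, rfl⟩
  have hd2 : ∀ w, d2 k (lb2 h1 h2 hq s₁ s₂ s₃ s₄ X w) =
      if s₃ * X < (nm w : ℝ) ∧ (nm w : ℝ) ≤ s₄ * X then (r w : ℂ) + Complex.I * (m w : ℂ)
        else 0 := by
    intro w
    have e0 : d2 k (lb2 h1 h2 hq s₁ s₂ s₃ s₄ X w) =
        if cls q w = k then wF F₂ s₃ s₄ X w else 0 := rfl
    rw [e0]
    have hci := cls_iff hq w k hc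
    by_cases hw : s₃ * X < (nm w : ℝ) ∧ (nm w : ℝ) ≤ s₄ * X
    · rw [if_pos hw]
      have e1 : wF F₂ s₃ s₄ X w = F₂ w := by unfold wF; exact if_pos hw
      rw [e1, hr, hm]
      unfold cl
      by_cases hcl : (q : ℤ) ∣ w.re - (rp k : Qd t c).re ∧ (q : ℤ) ∣ w.im - (rp k : Qd t c).im
      · rw [if_pos (hci.mpr hcl), if_pos hcl, if_pos hcl, mul_comm]
        exact (Complex.re_add_im _).symm
      · rw [if_neg (fun h => hcl (hci.mp h)), if_neg hcl, if_neg hcl]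
        simp
    · rw [if_neg hw]
      have e1 : wF F₂ s₃ s₄ X w = 0 := by unfold wF; exact if_neg hw
      rw [e1]
      simp
  have hmain : ∑ e ∈ good t c K κ Q X, ∑ v ∈ cone X e.1 e.2, ∑ w ∈ cone X e.1 e.2,
      d1 R k (lb2 h1 h2 hq s₁ s₂ s₃ s₄ X v) * d2 k (lb2 h1 h2 hq s₁ s₂ s₃ s₄ X w) *
        (g (dt v w) : ℂ) =
      S3 K κ Q X s₃ s₄ (fun v w => D v * ((r w : ℂ) + Complex.I * (m w : ℂ)) *
        (g (dt v w) : ℂ)) := by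
    unfold S3
    refine sum_congr rfl fun e _ => sum_congr rfl fun v _ => ?_
    unfold cw
    rw [sum_filter]
    refine sum_congr rfl fun w _ => ?_
    rw [hd2 w, hD]
    split_ifs with hw
    · rfl
    · simp
  rw [hmain]
  have hexp : S3 K κ Q X s₃ s₄ (fun v w => D v * ((r w : ℂ) + Complex.I * (m w : ℂ)) *
        (g (dt v w) : ℂ)) =
      ((S3 K κ Q X s₃ s₄ (fun v w => a v * r w * g (dt v w)) : ℝ) : ℂ) +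
      (((-1 : ℂ) * ((S3 K κ Q X s₃ s₄ (fun v w => b v * m w * g (dt v w)) : ℝ) : ℂ)) +
      (Complex.I * ((S3 K κ Q X s₃ s₄ (fun v w => a v * m w * g (dt v w)) : ℝ) : ℂ) +
      Complex.I * ((S3 K κ Q X s₃ s₄ (fun v w => b v * r w * g (dt v w)) : ℝ) : ℂ))) := by
    rw [← S3_real, ← S3_real, ← S3_real, ← S3_real, ← S3_mul, ← S3_mul, ← S3_mul, ← S3_add,
      ← S3_add, ← S3_add]
    refine S3_congr fun v w => ?_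
    rw [hDab v]
    push_cast
    linear_combination ((b v : ℂ) * (m w : ℂ) * (g (dt v w) : ℂ)) * Complex.I_sq
  rw [hexp]
  have k1 : ‖((S3 K κ Q X s₃ s₄ (fun v w => a v * r w * g (dt v w)) : ℝ) : ℂ)‖ ≤ ε₃ := by
    rw [Complex.norm_real, hr]; exact hBr a ha1 ha2
  have k2 : ‖(-1 : ℂ) * ((S3 K κ Q X s₃ s₄ (fun v w => b v * m w * g (dt v w)) : ℝ) : ℂ)‖ ≤
      ε₃ := by
    rw [norm_mul, norm_neg, norm_one, one_mul, Complex.norm_real, hm]; exact hBi b hb1 hb2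
  have k3 : ‖Complex.I * ((S3 K κ Q X s₃ s₄ (fun v w => a v * m w * g (dt v w)) : ℝ) : ℂ)‖ ≤
      ε₃ := by
    rw [norm_mul, Complex.norm_I, one_mul, Complex.norm_real, hm]; exact hBi a ha1 ha2
  have k4 : ‖Complex.I * ((S3 K κ Q X s₃ s₄ (fun v w => b v * r w * g (dt v w)) : ℝ) : ℂ)‖ ≤
      ε₃ := by
    rw [norm_mul, Complex.norm_I, one_mul, Complex.norm_real, hr]; exact hBr b hb1 hb2
  calc _ ≤ _ := norm_add_le _ _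
    _ ≤ ε₃ + (ε₃ + (ε₃ + ε₃)) := add_le_add k1 ((norm_add_le _ _).trans (add_le_add k2
        ((norm_add_le _ _).trans (add_le_add k3 k4))))
    _ = 4 * ε₃ := by ring


/-- the bilinear term with complex coefficients -/
theorem bilA {N : ℕ} {F₁ F₂ : Qd t c → ℂ} (h1 : Cm N F₁) (h2 : Cm N F₂) {q : ℕ} (hq : 1 ≤ q)
    (R : Qd t c → Qd t c → Prop) {K : ℕ} {κ : ℝ} {Q : ℕ} {s₁ s₂ s₃ s₄ X ε₃ : ℝ} (k : ℕ × ℕ)
    (hc : k ∈ Cs q) (u : ℕ → ℂ) (hu : ∀ p, ‖u p‖ ≤ 1)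
    (hBr : ∀ a : ℕ → ℝ, (∀ m, |a m| ≤ 1) →
      ∀ α : Qd t c → ℝ, (∀ z, |α z| ≤ 1) → (∀ z, α z ≠ 0 → s₁ * X < (nm z : ℝ)) →
      |∑ e ∈ good t c K κ Q X, ∑ v ∈ cone X e.1 e.2, ∑ w ∈ cw X s₃ s₄ e.1 e.2,
        α v * cl q (rp k) (fun z => (F₂ z).re) w * ta χ a Q (dt v w)| ≤ ε₃)
    (hBi : ∀ a : ℕ → ℝ, (∀ m, |a m| ≤ 1) →
      ∀ α : Qd t c → ℝ, (∀ z, |α z| ≤ 1) → (∀ z, α z ≠ 0 → s₁ * X < (nm z : ℝ)) →
      |∑ e ∈ good t c K κ Q X, ∑ v ∈ cone X e.1 e.2, ∑ w ∈ cw X s₃ s₄ e.1 e.2,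
        α v * cl q (rp k) (fun z => (F₂ z).im) w * ta χ a Q (dt v w)| ≤ ε₃) :
    ‖∑ e ∈ good t c K κ Q X, ∑ v ∈ cone X e.1 e.2, ∑ w ∈ cone X e.1 e.2,
      d1 R k (lb2 h1 h2 hq s₁ s₂ s₃ s₄ X v) * d2 k (lb2 h1 h2 hq s₁ s₂ s₃ s₄ X w) *
        (u (dt v w).toNat * (th χ Q (dt v w) : ℂ))‖ ≤ 8 * ε₃ := by
  have hre : ∀ m, |(u m).re| ≤ 1 := fun m => (Complex.abs_re_le_norm _).trans (hu m)
  have him : ∀ m, |(u m).im| ≤ 1 := fun m => (Complex.abs_im_le_norm _).trans (hu m)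
  have k1 := bilG (ta χ (fun m => (u m).re) Q) h1 h2 hq R (K := K) (κ := κ) (Q := Q) (s₁ := s₁)
    (s₂ := s₂) (s₃ := s₃) (s₄ := s₄) (X := X) (ε₃ := ε₃) k hc (hBr _ hre) (hBi _ hre)
  have k2 := bilG (ta χ (fun m => (u m).im) Q) h1 h2 hq R (K := K) (κ := κ) (Q := Q) (s₁ := s₁)
    (s₂ := s₂) (s₃ := s₃) (s₄ := s₄) (X := X) (ε₃ := ε₃) k hc (hBr _ him) (hBi _ him)
  have e : ∑ e ∈ good t c K κ Q X, ∑ v ∈ cone X e.1 e.2, ∑ w ∈ cone X e.1 e.2,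
      d1 R k (lb2 h1 h2 hq s₁ s₂ s₃ s₄ X v) * d2 k (lb2 h1 h2 hq s₁ s₂ s₃ s₄ X w) *
        (u (dt v w).toNat * (th χ Q (dt v w) : ℂ)) =
      (∑ e ∈ good t c K κ Q X, ∑ v ∈ cone X e.1 e.2, ∑ w ∈ cone X e.1 e.2,
      d1 R k (lb2 h1 h2 hq s₁ s₂ s₃ s₄ X v) * d2 k (lb2 h1 h2 hq s₁ s₂ s₃ s₄ X w) *
        (ta χ (fun m => (u m).re) Q (dt v w) : ℂ)) +
      Complex.I * (∑ e ∈ good t c K κ Q X, ∑ v ∈ cone X e.1 e.2, ∑ w ∈ cone X e.1 e.2,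
      d1 R k (lb2 h1 h2 hq s₁ s₂ s₃ s₄ X v) * d2 k (lb2 h1 h2 hq s₁ s₂ s₃ s₄ X w) *
        (ta χ (fun m => (u m).im) Q (dt v w) : ℂ)) := by
    simp only [mul_sum, ← sum_add_distrib]
    refine sum_congr rfl fun e _ => sum_congr rfl fun v _ => sum_congr rfl fun w _ => ?_
    have h3 : u (dt v w).toNat = ((u (dt v w).toNat).re : ℂ) +
        Complex.I * ((u (dt v w).toNat).im : ℂ) := by
      rw [mul_comm]
      exact (Complex.re_add_im _).symm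
    unfold ta
    rw [h3]
    push_cast
    ring
  rw [e]
  refine (norm_add_le _ _).trans ?_
  rw [norm_mul, Complex.norm_I, one_mul]
  linarith

open scoped Classical in
/-- the estimate for fixed `X` -/
theorem per_X2A (hF : Fd t c f χ) (hp : S_PERa t c χ) {N : ℕ} {F₁ F₂ : Qd t c → ℂ}
    (c1 : Cm N F₁) (c2 : Cm N F₂) {q : ℕ}
    (hq : 1 ≤ q) {R : Qd t c → Qd t c → Prop} (hR : Rel q R) {K : ℕ} {κ : ℝ} {Q : ℕ}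
    {s s₁ s₂ s₃ s₄ X ε₃ ε' : ℝ} (hs₁ : 0 < s₁) (hs₃ : 0 < s₃) (hs1 : s ≤ s₁) (hs3 : s ≤ s₃)
    (hK : 1 ≤ K) (hκ : 0 < κ) (hQ : 1 ≤ Q) (hqQ : q ≤ Q) (hX : f * (K * Q : ℝ) ≤ X)
    (ϖ : ℕ → Qd t c) (rr : ℕ → ℤ) (hϖ : ∀ p ∈ PQ χ Q, nm (ϖ p) = p ∧ lat p (rr p) (ϖ p) ∧
      (p : ℤ) ∣ rr p ^ 2 - t * rr p + c)
    (u : ℕ → ℂ) (hun : ∀ p, ‖u p‖ ≤ 1) (hu : ∀ p ∈ PQ χ Q, u p * (F₁ (ϖ p) * F₂ (ϖ p)) = 1)
    (ζ₁ ζ₂ : ℕ × ℕ → ℕ → Tr (Lab N q) → ℕ × ℕ × ℕ × ℕ → ℝ)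
    (hζ : ∀ k ∈ Cs q, ∀ e ∈ good t c K κ Q X, ∀ p ∈ PQ χ Q,
      (((ζ₁ k p (TT (lb2 c1 c2 hq s₁ s₂ s₃ s₄ X) X e) (res p e) : ℝ) : ℂ) +
        Complex.I * ((ζ₂ k p (TT (lb2 c1 c2 hq s₁ s₂ s₃ s₄ X) X e) (res p e) : ℝ) : ℂ) =
      (((p : ℝ) + 1) / (2 * Q) : ℝ) * ∑ z ∈ cone X e.1 e.2, ∑ w ∈ cone X e.1 e.2,
        (if dt z w = p ∧ lat p (rr p) z then d1 R k (lb2 c1 c2 hq s₁ s₂ s₃ s₄ X z) *
          d2 k (lb2 c1 c2 hq s₁ s₂ s₃ s₄ X w) else 0)) ∧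
      (((av p (ζ₁ k p) (TT (lb2 c1 c2 hq s₁ s₂ s₃ s₄ X) X e) : ℝ) : ℂ) +
        Complex.I * ((av p (ζ₂ k p) (TT (lb2 c1 c2 hq s₁ s₂ s₃ s₄ X) X e) : ℝ) : ℂ) =
      (1 / (2 * (Q : ℝ)) : ℝ) * ∑ z ∈ cone X e.1 e.2, ∑ w ∈ cone X e.1 e.2,
        (if dt z w = p then d1 R k (lb2 c1 c2 hq s₁ s₂ s₃ s₄ X z) *
          d2 k (lb2 c1 c2 hq s₁ s₂ s₃ s₄ X w) else 0)))
    (hB : ∀ k ∈ Cs q, ∀ a : ℕ → ℝ, (∀ m, |a m| ≤ 1) → ∀ α : Qd t c → ℝ, (∀ z, |α z| ≤ 1) → (∀ z, α z ≠ 0 → s₁ * X < (nm z : ℝ)) →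
      |∑ e ∈ good t c K κ Q X, ∑ v ∈ cone X e.1 e.2, ∑ w ∈ cw X s₃ s₄ e.1 e.2,
        α v * cl q (rp k) (fun z => (F₂ z).re) w * ta χ a Q (dt v w)| ≤ ε₃ * X * Q ∧
      |∑ e ∈ good t c K κ Q X, ∑ v ∈ cone X e.1 e.2, ∑ w ∈ cw X s₃ s₄ e.1 e.2,
        α v * cl q (rp k) (fun z => (F₂ z).im) w * ta χ a Q (dt v w)| ≤ ε₃ * X * Q)
    (hε' : 0 ≤ ε')
    (hL : ∀ p ∈ PQ χ Q, ∀ π : Qd t c, nm π = p →
      (((dedge t c (X / p)).filter (fun e => 0 < pp e.1 e.2 ∧ s * (X / p) < (nm e.1 : ℝ) ∧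
        s * (X / p) < (nm e.2 : ℝ) ∧ ¬ InG K κ Q X π e)).card : ℝ) ≤ ε' * (X / p)) :
    ‖∑ p ∈ PQ χ Q, ((Real.log p * ((p : ℝ) + 1) : ℝ) : ℂ) *
        AG (g2 F₁ F₂ R) s₁ s₂ s₃ s₄ (X / p)‖ ≤
      2 * Q * ∑ k ∈ Cs q, ∑ e ∈ edge t c (X / (K * Q)),
        (|∑ p ∈ PQ χ Q, Real.log p *
          (((u p).re * ζ₁ k p (TT (lb2 c1 c2 hq s₁ s₂ s₃ s₄ X) X e) (res p e) -
            (u p).im * ζ₂ k p (TT (lb2 c1 c2 hq s₁ s₂ s₃ s₄ X) X e) (res p e)) -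
          av p (fun T y => (u p).re * ζ₁ k p T y - (u p).im * ζ₂ k p T y)
            (TT (lb2 c1 c2 hq s₁ s₂ s₃ s₄ X) X e))| +
        |∑ p ∈ PQ χ Q, Real.log p *
          (((u p).re * ζ₂ k p (TT (lb2 c1 c2 hq s₁ s₂ s₃ s₄ X) X e) (res p e) +
            (u p).im * ζ₁ k p (TT (lb2 c1 c2 hq s₁ s₂ s₃ s₄ X) X e) (res p e)) -
          av p (fun T y => (u p).re * ζ₂ k p T y + (u p).im * ζ₁ k p T y)
            (TT (lb2 c1 c2 hq s₁ s₂ s₃ s₄ X) X e))|) +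
      (8 * (Cs q).card * ε₃ * X * Q + 2 * ε' * X * ∑ p ∈ PQ χ Q, Real.log p) := by
  have hKQ : (0 : ℝ) < K * Q := by
    have h1 : (1 : ℝ) ≤ K := by exact_mod_cast hK
    have h2 : (1 : ℝ) ≤ Q := by exact_mod_cast hQ
    positivity
  have hX0 : 0 ≤ X := le_trans (by positivity) hX
  obtain ⟨S, hS⟩ : ∃ S : ℕ × ℕ → ℕ → ℂ, S = fun (k : ℕ × ℕ) (p : ℕ) =>
      ∑ e ∈ (dedge t c (X / p)).filter (InG K κ Q X (ϖ p)),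
        d1 R k (lb2 c1 c2 hq s₁ s₂ s₃ s₄ X (ϖ p * e.1)) *
          d2 k (lb2 c1 c2 hq s₁ s₂ s₃ s₄ X (ϖ p * e.2)) := ⟨_, rfl⟩
  -- each class
  have hc1 : ∀ k ∈ Cs q, ‖∑ p ∈ PQ χ Q, ((Real.log p * ((p : ℝ) + 1) : ℝ) : ℂ) *
      (u p * S k p)‖ ≤
      2 * Q * ∑ e ∈ edge t c (X / (K * Q)),
        (|∑ p ∈ PQ χ Q, Real.log p *
          (((u p).re * ζ₁ k p (TT (lb2 c1 c2 hq s₁ s₂ s₃ s₄ X) X e) (res p e) -
            (u p).im * ζ₂ k p (TT (lb2 c1 c2 hq s₁ s₂ s₃ s₄ X) X e) (res p e)) -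
          av p (fun T y => (u p).re * ζ₁ k p T y - (u p).im * ζ₂ k p T y)
            (TT (lb2 c1 c2 hq s₁ s₂ s₃ s₄ X) X e))| +
        |∑ p ∈ PQ χ Q, Real.log p *
          (((u p).re * ζ₂ k p (TT (lb2 c1 c2 hq s₁ s₂ s₃ s₄ X) X e) (res p e) +
            (u p).im * ζ₁ k p (TT (lb2 c1 c2 hq s₁ s₂ s₃ s₄ X) X e) (res p e)) -
          av p (fun T y => (u p).re * ζ₂ k p T y + (u p).im * ζ₁ k p T y)
            (TT (lb2 c1 c2 hq s₁ s₂ s₃ s₄ X) X e))|) +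
      8 * (ε₃ * X * Q) := by
    intro k hc
    have h1 := hp K κ Q X (Lab N q) (d1 R k) (d2 k) (lb2 c1 c2 hq s₁ s₂ s₃ s₄ X) ϖ rr
      u (ζ₁ k) (ζ₂ k) hK hκ hQ hX hϖ (hζ k hc)
    have h2 := bilA (χ := χ) c1 c2 hq R (K := K) (κ := κ) (Q := Q) (s₁ := s₁) (s₂ := s₂)
      (s₃ := s₃) (s₄ := s₄) (X := X) k hc u hun (fun a a0 α a1 a2 => (hB k hc a a0 α a1 a2).1)
      (fun a a0 α a1 a2 => (hB k hc a a0 α a1 a2).2)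
    rw [hS]
    exact h1.trans (by linarith)
  -- the loss
  have hloss : ‖∑ p ∈ PQ χ Q, ((Real.log p * ((p : ℝ) + 1) : ℝ) : ℂ) *
      (AG (g2 F₁ F₂ R) s₁ s₂ s₃ s₄ (X / p) - u p * ∑ k ∈ Cs q, S k p)‖ ≤
      2 * ε' * X * ∑ p ∈ PQ χ Q, Real.log p := by
    rw [mul_sum]
    refine (norm_sum_le _ _).trans (sum_le_sum fun p hpm => ?_)
    have hpp := (PQ_mem hpm).2.2.1
    have hp0 : (0 : ℝ) < p := by exact_mod_cast hpp.pos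
    have hp1 : (1 : ℝ) ≤ p := by exact_mod_cast hpp.one_lt.le
    have hcop : Nat.Coprime p q := by
      rw [Nat.Prime.coprime_iff_not_dvd hpp]
      intro hd
      have h1 := Nat.le_of_dvd (by omega) hd
      have h2 := (PQ_mem hpm).1
      omega
    have h1 := AG_splitA c1 c2 hq hR hpp hcop (hϖ p hpm).1 (hu p hpm) (s := s) (s₁ := s₁) (s₂ := s₂) (s₃ := s₃)
      (s₄ := s₄) (X := X) (by positivity) (by positivity) (mul_le_mul_of_nonneg_right hs1 hX0)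
      (mul_le_mul_of_nonneg_right hs3 hX0) (fun e he => InG_pp hF hK hκ hQ hX he)
      (hL p hpm _ (hϖ p hpm).1)
    rw [norm_mul, Complex.norm_real, Real.norm_eq_abs,
      abs_of_nonneg (mul_nonneg (log_nonneg_PQ hpm) (by positivity))]
    have h1' : ‖AG (g2 F₁ F₂ R) s₁ s₂ s₃ s₄ (X / p) - u p * ∑ k ∈ Cs q, S k p‖ ≤ ε' * (X / p) := by
      rw [hS]
      exact h1
    calc Real.log p * ((p : ℝ) + 1) * ‖AG (g2 F₁ F₂ R) s₁ s₂ s₃ s₄ (X / p) -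
          u p * ∑ k ∈ Cs q, S k p‖ ≤ Real.log p * ((p : ℝ) + 1) * (ε' * (X / p)) :=
          mul_le_mul_of_nonneg_left h1' (mul_nonneg (log_nonneg_PQ hpm) (by positivity))
      _ = Real.log p * ε' * X * (((p : ℝ) + 1) / p) := by ring
      _ ≤ Real.log p * ε' * X * 2 := by
          refine mul_le_mul_of_nonneg_left ?_
            (mul_nonneg (mul_nonneg (log_nonneg_PQ hpm) hε') hX0)
          rw [div_le_iff₀ hp0]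
          linarith
      _ = 2 * ε' * X * Real.log p := by ring
  have hdec : ∑ p ∈ PQ χ Q, ((Real.log p * ((p : ℝ) + 1) : ℝ) : ℂ) *
        AG (g2 F₁ F₂ R) s₁ s₂ s₃ s₄ (X / p) =
      ∑ p ∈ PQ χ Q, ((Real.log p * ((p : ℝ) + 1) : ℝ) : ℂ) *
        (AG (g2 F₁ F₂ R) s₁ s₂ s₃ s₄ (X / p) - u p * ∑ k ∈ Cs q, S k p) +
      ∑ k ∈ Cs q, ∑ p ∈ PQ χ Q, ((Real.log p * ((p : ℝ) + 1) : ℝ) : ℂ) * (u p * S k p) := by
    rw [sum_comm, ← sum_add_distrib]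
    refine sum_congr rfl fun p _ => ?_
    rw [← mul_sum, ← mul_sum]
    ring
  rw [hdec]
  refine (norm_add_le _ _).trans ?_
  have hcs := (norm_sum_le (Cs q) (fun k => ∑ p ∈ PQ χ Q,
    ((Real.log p * ((p : ℝ) + 1) : ℝ) : ℂ) * (u p * S k p))).trans (sum_le_sum hc1)
  rw [sum_add_distrib, sum_const, nsmul_eq_mul, ← mul_sum] at hcs
  have e : ((Cs q).card : ℝ) * (8 * (ε₃ * X * Q)) = 8 * (Cs q).card * ε₃ * X * Q := by ring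
  rw [e] at hcs
  linarith


end Pool.Agent.N912.EL
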