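import Pool.Agent.N912.EL.Gauss

/-!
Project EL (helper912): final form for the Gaussian integers.
-/

set_option autoImplicit false

namespace Pool.Agent.N912.EL

open Finset Filter
open Pool.Agent.W78.GA (Qd nm prim dt ip)
open Pool.Agent.W78.EG
open Pool.Agent.N912.PM (SG)

section

variable {A : Type} [AddCommGroup A] [Finite A] {H₁ H₂ : GaussianInt → A}

/-- the label of the factorisations -/
theorem glb_of (hlab : S_LAB 0 1) (hst : S_STAR 0 1) (hap : S_APK 0 1) (hfg : S_FARG)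
    (h₁ : AddG H₁) (h₂ : AddG H₂)
    (hfar : ∀ ψ : AddChar A ℂ, ψ ≠ 1 → FarG (fun z => ψ (H₁ z)) ∨ FarG (fun z => ψ (H₂ z))) :
    ∃ Φ : ℕ × ℕ → A, GLb 0 1 ⊤ Φ (fun z : Qd 0 1 => H₁ (star (tg z)))
      (fun z : Qd 0 1 => H₂ (tg z)) := by
  obtain ⟨Φ, hΦ⟩ := hlab A _ _ (addK_star h₁) (addK_of h₂)
  refine ⟨Φ, ⟨addK_star h₁, addK_of h₂, hΦ, ?_⟩⟩
  rintro ψ ⟨d, _, hd⟩
  have hψ : ψ ≠ 1 := by
    rintro rfl
    exact hd rfl
  rcases hfar ψ hψ with h | h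
  · left
    have h1 := hst _ _ (apd_ch hap hfg h₁ ψ h)
    have e : (fun z : Qd 0 1 => ψ (H₁ (tg (star z)))) = fun z : Qd 0 1 => ψ (H₁ (star (tg z))) := by
      funext z
      rw [tg_star]
    rw [e] at h1
    exact h1
  · right
    exact apd_ch hap hfg h₂ ψ h

end

section

variable {A : Type} [AddCommGroup A] {H₁ H₂ : GaussianInt → A} {Φ : ℕ × ℕ → A}

/-- the number of the pairs with a given value -/
theorem dev_pg (hc : S_CORR 0 1) (hΦ : ∀ v w : Qd 0 1, dt v w = 1 → 0 < pp v w →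
    Φ (nm v, nm w) = H₁ (star (tg v)) + H₂ (tg w)) {q u r : ℕ} {s₁ s₂ s₃ s₄ : ℝ} {X : ℕ}
    (h1 : 0 ≤ s₁) (h3 : 0 ≤ s₃) (Q : ℕ → Prop) [DecidablePred Q] (g : A)
    [DecidablePred fun p : ℕ × ℕ => Q (p.1 * p.2)] [DecidablePred fun p : ℕ × ℕ => Φ p = g] :
    ((({p ∈ PG q u r s₁ s₂ s₃ s₄ X | Q (p.1.norm * p.2.norm).natAbs ∧ H₁ p.1 + H₂ p.2 = g} :
      Set (GaussianInt × GaussianInt)).ncard : ℝ) =
      uc 0 1 * ((((SG 0 1 q u r s₁ s₂ s₃ s₄ X).filter (fun p => Q (p.1 * p.2))).filter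
        (fun p => Φ p = g)).card : ℝ)) ∧
    ((({p ∈ PG q u r s₁ s₂ s₃ s₄ X | Q (p.1.norm * p.2.norm).natAbs} :
      Set (GaussianInt × GaussianInt)).ncard : ℝ) =
      uc 0 1 * (((SG 0 1 q u r s₁ s₂ s₃ s₄ X).filter (fun p => Q (p.1 * p.2))).card : ℝ)) := by
  classical
  constructor
  · have h := card_pg hc (q := q) (u := u) (r := r) (s₁ := s₁) (s₂ := s₂) (s₃ := s₃) (s₄ := s₄)
      (X := X) h1 h3 (fun p => Q (p.1 * p.2) ∧ Φ p = g)
    rw [filter_filter]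
    have e1 : {p ∈ PG q u r s₁ s₂ s₃ s₄ X | Q (p.1.norm * p.2.norm).natAbs ∧
        H₁ p.1 + H₂ p.2 = g} = PG q u r s₁ s₂ s₃ s₄ X ∩ {p | (fun p : ℕ × ℕ =>
        Q (p.1 * p.2) ∧ Φ p = g) (p.1.norm.natAbs, p.2.norm.natAbs)} := by
      ext p
      rw [Set.mem_inter_iff]
      show p ∈ PG q u r s₁ s₂ s₃ s₄ X ∧ (Q (p.1.norm * p.2.norm).natAbs ∧ H₁ p.1 + H₂ p.2 = g) ↔
        p ∈ PG q u r s₁ s₂ s₃ s₄ X ∧ (Q (p.1.norm.natAbs * p.2.norm.natAbs) ∧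
          Φ (p.1.norm.natAbs, p.2.norm.natAbs) = g)
      refine and_congr_right fun hp => ?_
      rw [Int.natAbs_mul]
      refine and_congr_right fun _ => ?_
      obtain ⟨v, w, rfl⟩ : ∃ v w : Qd 0 1, p = (star (tg v), tg w) :=
        ⟨gt (star p.1), gt p.2, by rw [tg_gt, tg_gt, star_star]⟩
      obtain ⟨h5, h6, _⟩ := (pg_iff h1 h3 v w).1 hp
      have hnv : ((star (tg v) : GaussianInt)).norm.natAbs = nm v := by
        rw [← tg_star, tg_norm, nm_star']; rfl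
      have hnw : ((tg w : GaussianInt)).norm.natAbs = nm w := by rw [tg_norm]; rfl
      simp only
      rw [hnv, hnw, hΦ v w h5 h6]
    rw [e1, h]
    congr!
  · have h := card_pg hc (q := q) (u := u) (r := r) (s₁ := s₁) (s₂ := s₂) (s₃ := s₃) (s₄ := s₄)
      (X := X) h1 h3 (fun p => Q (p.1 * p.2))
    have e1 : {p ∈ PG q u r s₁ s₂ s₃ s₄ X | Q (p.1.norm * p.2.norm).natAbs} =
        PG q u r s₁ s₂ s₃ s₄ X ∩ {p | (fun p : ℕ × ℕ =>
        Q (p.1 * p.2)) (p.1.norm.natAbs, p.2.norm.natAbs)} := by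
      ext p
      rw [Set.mem_inter_iff]
      show p ∈ PG q u r s₁ s₂ s₃ s₄ X ∧ Q (p.1.norm * p.2.norm).natAbs ↔
        p ∈ PG q u r s₁ s₂ s₃ s₄ X ∧ Q (p.1.norm.natAbs * p.2.norm.natAbs)
      rw [Int.natAbs_mul]
    rw [e1, h]
    congr!

end

end Pool.Agent.N912.EL
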