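import Pool.Agent.N912.EL.All
import Pool.Agent.W251.EG.Out5
import Pool.Agent.W251.EG.Fd4

/-!
Project EL (helper912): the factorisations `n + i = α β` in the Gaussian integers.
-/

set_option autoImplicit false

namespace Pool.Agent.N912.EL

open Finset Filter
open Pool.Agent.W78.GA (Qd nm prim dt ip ball pball dedge mem_ball nm_cast star_mul_eq)
open Pool.Agent.W78.EG
open Pool.Agent.N912.PM (SG)

/-- the element of `Qd 0 1` of a Gaussian integer -/
def gt (z : GaussianInt) : Qd 0 1 := ⟨z.re, z.im⟩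

@[simp] theorem tg_gt (z : GaussianInt) : tg (gt z) = z := rfl

@[simp] theorem gt_tg (z : Qd 0 1) : gt (tg z) = z := rfl

theorem tg_mul (z w : Qd 0 1) : tg (z * w) = tg z * tg w := by
  apply Zsqrtd.ext
  · show (z * w).re = (tg z * tg w).re
    rw [QuadraticAlgebra.re_mul, Zsqrtd.re_mul]
    show z.re * w.re + -1 * z.im * w.im = z.re * w.re + -1 * z.im * w.im
    ring
  · show (z * w).im = (tg z * tg w).im
    rw [QuadraticAlgebra.im_mul, Zsqrtd.im_mul]
    show z.re * w.im + z.im * w.re + 0 * z.im * w.im = z.re * w.im + z.im * w.re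
    ring

theorem tg_star (z : Qd 0 1) : tg (star z) = star (tg z) := by
  apply Zsqrtd.ext
  · show (star z).re = (star (tg z)).re
    rw [QuadraticAlgebra.re_star, Zsqrtd.re_star]
    show z.re + 0 * z.im = z.re
    ring
  · show (star z).im = (star (tg z)).im
    rw [QuadraticAlgebra.im_star, Zsqrtd.im_star]
    rfl

theorem tg_norm (z : Qd 0 1) : (tg z).norm = nm z := by
  rw [nm_cast (by norm_num : (0 : ℤ) ^ 2 < 4 * 1), Zsqrtd.norm_def]
  show z.re * z.re - -1 * z.im * z.im = _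
  ring

theorem gt_norm (z : GaussianInt) : z.norm = nm (gt z) := by
  rw [← tg_norm, tg_gt]

theorem tg_pair (v w : Qd 0 1) : star (tg v) * tg w = ⟨ip v w, dt v w⟩ := by
  rw [← tg_star, ← tg_mul, star_mul_eq]
  rfl

theorem pp01 (v w : Qd 0 1) : pp v w = 2 * ip v w := by
  unfold pp
  ring

theorem isUnit_tg {u : Qd 0 1} (h : nm u = 1) : IsUnit (tg u) := by
  rw [← Zsqrtd.norm_eq_one_iff, tg_norm, h]
  rfl

theorem tg_ne {z : Qd 0 1} (h : z ≠ 0) : tg z ≠ 0 := by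
  intro h2
  apply h
  have h3 : z.re = 0 := congrArg Zsqrtd.re h2
  have h4 : z.im = 0 := congrArg Zsqrtd.im h2
  exact QuadraticAlgebra.ext h3 h4

theorem hD1 : (0 : ℤ) ^ 2 < 4 * 1 := by norm_num

section

variable {A : Type} [AddCommGroup A]

/-- completely additive functions of the non-zero Gaussian integers, zero at the units -/
structure AddG (H : GaussianInt → A) : Prop where
  mul : ∀ z w : GaussianInt, z ≠ 0 → w ≠ 0 → H (z * w) = H z + H w
  unit : ∀ u : GaussianInt, IsUnit u → H u = 0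

theorem addK_of {H : GaussianInt → A} (h : AddG H) : AddK (fun z : Qd 0 1 => H (tg z)) where
  mul := fun z w hz hw => by rw [tg_mul]; exact h.mul _ _ (tg_ne hz) (tg_ne hw)
  unit := fun u hu => h.unit _ (isUnit_tg hu)

theorem addK_star {H : GaussianInt → A} (h : AddG H) :
    AddK (fun z : Qd 0 1 => H (star (tg z))) where
  mul := fun z w hz hw => by
    rw [tg_mul, star_mul']
    exact h.mul _ _ (star_ne_zero.2 (tg_ne hz)) (star_ne_zero.2 (tg_ne hw))
  unit := fun u hu => h.unit _ (by rw [← tg_star]; exact isUnit_tg (by rw [nm_star']; exact hu))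

theorem apd_ch [Finite A] (hap : S_APK 0 1) (hfg : S_FARG) {H : GaussianInt → A} (h : AddG H)
    (ψ : AddChar A ℂ) (hfar : FarG (fun z => ψ (H z))) :
    Apd (Nat.card A) (fun z : Qd 0 1 => ψ (H (tg z))) := by
  have hN : 1 ≤ Nat.card A := Nat.card_pos
  have hpow : ∀ z : GaussianInt, (ψ (H z)) ^ Nat.card A = 1 := fun z =>
    Pool.Agent.V11296.CV.chpow ψ _
  refine hap (Nat.card A) _ hN ⟨fun z w hz hw => ?_, fun u hu => ?_, fun z => ?_⟩
    (fun z => hpow _) ?_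
  · show ψ (H (tg (z * w))) = ψ (H (tg z)) * ψ (H (tg w))
    rw [(addK_of h).mul z w hz hw, AddChar.map_add_eq_mul]
  · show ψ (H (tg u)) = 1
    rw [(addK_of h).unit u hu, AddChar.map_zero_eq_one]
  · exact (Pool.Agent.V11296.CV.chnrm ψ _).le
  · refine hfg (Nat.card A) (fun z => ψ (H z)) hN (fun z w hz hw => ?_) (fun u hu => ?_)
      (fun z => hpow z) hfar
    · show ψ (H (z * w)) = ψ (H z) * ψ (H w)
      rw [h.mul z w hz hw, AddChar.map_add_eq_mul]
    · show ψ (H u) = 1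
      rw [h.unit u hu, AddChar.map_zero_eq_one]

end

/-- the pairs of Gaussian integers -/
def PG (q u r : ℕ) (s₁ s₂ s₃ s₄ : ℝ) (X : ℕ) : Set (GaussianInt × GaussianInt) :=
  {p | (∃ n : ℕ, 1 ≤ n ∧ n ≡ u [MOD q] ∧ p.1 * p.2 = ⟨n, 1⟩) ∧ p.1.norm ≡ r [ZMOD q] ∧
    s₁ * X < (p.1.norm : ℝ) ∧ (p.1.norm : ℝ) ≤ s₂ * X ∧ s₃ * X < (p.2.norm : ℝ) ∧
    (p.2.norm : ℝ) ≤ s₄ * X}

theorem prod_norm {v w : Qd 0 1} (h : dt v w = 1) : ((nm v * nm w : ℕ) : ℤ) = ip v w ^ 2 + 1 := by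
  have h1 := congrArg Zsqrtd.norm (tg_pair v w)
  rw [Zsqrtd.norm_mul, ← tg_star, tg_norm, tg_norm, nm_star', h, Zsqrtd.norm_def] at h1
  push_cast
  rw [h1]
  show ip v w * ip v w - -1 * 1 * 1 = _
  ring

theorem pg_iff {q u r : ℕ} {s₁ s₂ s₃ s₄ : ℝ} {X : ℕ} (h1 : 0 ≤ s₁) (h3 : 0 ≤ s₃) (v w : Qd 0 1) :
    (star (tg v), tg w) ∈ PG q u r s₁ s₂ s₃ s₄ X ↔
      dt v w = 1 ∧ 0 < pp v w ∧ (nm v, nm w) ∈ SG 0 1 q u r s₁ s₂ s₃ s₄ X := by
  classical
  have hX0 : (0 : ℝ) ≤ X := Nat.cast_nonneg X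
  have hn : ((star (tg v) : GaussianInt)).norm = nm v := by rw [← tg_star, tg_norm, nm_star']
  unfold PG SG
  rw [Set.mem_ofPred_eq, mem_filter, mem_product, mem_Icc, mem_Icc]
  simp only
  rw [tg_pair, hn, tg_norm, pp01]
  constructor
  · rintro ⟨⟨n, hn1, hn2, hn3⟩, hr, a1, a2, a3, a4⟩
    have e1 : ip v w = n := congrArg Zsqrtd.re hn3
    have e2 : dt v w = 1 := congrArg Zsqrtd.im hn3
    have b1 : 0 < (nm v : ℝ) := lt_of_le_of_lt (mul_nonneg h1 hX0) (by exact_mod_cast a1)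
    have b2 : 0 < (nm w : ℝ) := lt_of_le_of_lt (mul_nonneg h3 hX0) (by exact_mod_cast a3)
    have b1' : 0 < nm v := by exact_mod_cast b1
    have b2' : 0 < nm w := by exact_mod_cast b2
    have hp := prod_norm e2
    rw [e1] at hp
    refine ⟨e2, by rw [e1]; omega, ⟨⟨b1', ?_⟩, b2', ?_⟩, ?_, ?_, ?_, n, by omega, ?_, hn2⟩
    · exact (Nat.le_floor_iff' (by omega)).2 (by exact_mod_cast a2)
    · exact (Nat.le_floor_iff' (by omega)).2 (by exact_mod_cast a4)
    · exact_mod_cast a1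
    · exact_mod_cast a3
    · exact (Int.natCast_modEq_iff).1 hr
    · have : ((nm v * nm w : ℕ) : ℤ) = ((n ^ 2 + 0 * n + 1 : ℕ) : ℤ) := by
        rw [hp]; push_cast; ring
      exact_mod_cast this
  · rintro ⟨e2, hpp, ⟨⟨b1, a2⟩, b2, a4⟩, a1, a3, hr, n, hn1, hn2, hn3⟩
    have hp := prod_norm e2
    have e1 : ip v w = n := by
      have h5 : ip v w ^ 2 + 1 = (n : ℤ) ^ 2 + 1 := by
        rw [← hp, hn2]; push_cast; ring
      have h6 : (ip v w - n) * (ip v w + n) = 0 := by linear_combination h5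
      rcases mul_eq_zero.1 h6 with h7 | h7
      · omega
      · omega
    refine ⟨⟨n, by omega, hn3, ?_⟩, (Int.natCast_modEq_iff).2 hr, ?_, ?_, ?_, ?_⟩
    · rw [e1, e2]
    · exact_mod_cast a1
    · exact_mod_cast (Nat.le_floor_iff' (by omega)).1 a2
    · exact_mod_cast a3
    · exact_mod_cast (Nat.le_floor_iff' (by omega)).1 a4

theorem sg_bound {q u r : ℕ} {s₁ s₂ s₃ s₄ : ℝ} {X N : ℕ} (h2 : s₂ * X ≤ N) (h4 : s₄ * X ≤ N)
    {p : ℕ × ℕ} (hp : p ∈ SG 0 1 q u r s₁ s₂ s₃ s₄ X) : p ∈ SP 0 1 N := by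
  classical
  unfold SG at hp
  rw [mem_filter, mem_product, mem_Icc, mem_Icc] at hp
  obtain ⟨⟨⟨a1, a2⟩, a3, a4⟩, -, -, -, n, b1, b2, -⟩ := hp
  unfold SP
  rw [mem_filter, mem_product, mem_Icc, mem_Icc]
  have c2 : (p.1 : ℝ) ≤ N := ((Nat.le_floor_iff' (by omega)).1 a2).trans h2
  have c4 : (p.2 : ℝ) ≤ N := ((Nat.le_floor_iff' (by omega)).1 a4).trans h4
  refine ⟨⟨⟨a1, by exact_mod_cast c2⟩, a3, by exact_mod_cast c4⟩, n, by omega, ?_⟩
  have : ((p.1 * p.2 : ℕ) : ℤ) = ((n ^ 2 + 0 * n + 1 : ℕ) : ℤ) := by rw [b2]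
  push_cast at this
  linarith

theorem gp_inj : Function.Injective (fun e : Qd 0 1 × Qd 0 1 => (star (tg e.1), tg e.2)) := by
  intro e e' h
  have h1 : star (tg e.1) = star (tg e'.1) := congrArg Prod.fst h
  have h2 : tg e.2 = tg e'.2 := congrArg Prod.snd h
  have h3 : tg e.1 = tg e'.1 := star_injective h1
  have h4 : e.1 = e'.1 := by rw [← gt_tg e.1, h3, gt_tg]
  have h5 : e.2 = e'.2 := by rw [← gt_tg e.2, h2, gt_tg]
  exact Prod.ext h4 h5

open scoped Classical in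
/-- every pair of `SG` comes from `uc` pairs of Gaussian integers -/
theorem card_pg (hc : S_CORR 0 1) {q u r : ℕ} {s₁ s₂ s₃ s₄ : ℝ} {X : ℕ} (h1 : 0 ≤ s₁)
    (h3 : 0 ≤ s₃) (P : ℕ × ℕ → Prop) :
    ((PG q u r s₁ s₂ s₃ s₄ X ∩ {p | P (p.1.norm.natAbs, p.2.norm.natAbs)}).ncard : ℝ) =
      uc 0 1 * (((SG 0 1 q u r s₁ s₂ s₃ s₄ X).filter P).card : ℝ) := by
  obtain ⟨N, hN⟩ := exists_nat_ge (max (max (s₂ * X) (s₄ * X)) 1)
  have hN1 : (1 : ℝ) ≤ N := (le_max_right _ _).trans hN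
  have hN2 : s₂ * X ≤ N := ((le_max_left _ _).trans (le_max_left _ _)).trans hN
  have hN4 : s₄ * X ≤ N := ((le_max_right _ _).trans (le_max_left _ _)).trans hN
  obtain ⟨E, hE⟩ : ∃ E : Finset (Qd 0 1 × Qd 0 1), E = ((dedge 0 1 (N : ℝ)).filter
    (fun e => 0 < pp e.1 e.2)).filter
    (fun e => (nm e.1, nm e.2) ∈ (SG 0 1 q u r s₁ s₂ s₃ s₄ X).filter P) := ⟨_, rfl⟩
  have key := hc (N : ℝ) (fun x y => if (x, y) ∈ (SG 0 1 q u r s₁ s₂ s₃ s₄ X).filter P then 1
    else 0) hN1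
  rw [Nat.floor_natCast, sum_boole, ← hE, sum_boole] at key
  have hf : (SP 0 1 N).filter (fun x : ℕ × ℕ => (x.1, x.2) ∈
      (SG 0 1 q u r s₁ s₂ s₃ s₄ X).filter P) = (SG 0 1 q u r s₁ s₂ s₃ s₄ X).filter P := by
    ext p
    rw [mem_filter]
    exact ⟨fun h => h.2, fun h => ⟨sg_bound hN2 hN4 (mem_filter.1 h).1, h⟩⟩
  rw [hf] at key
  rw [← key]
  have himg : PG q u r s₁ s₂ s₃ s₄ X ∩ {p | P (p.1.norm.natAbs, p.2.norm.natAbs)} =
      ((E.image (fun e : Qd 0 1 × Qd 0 1 => (star (tg e.1), tg e.2)) :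
        Finset (GaussianInt × GaussianInt)) : Set (GaussianInt × GaussianInt)) := by
    ext p
    rw [Set.mem_inter_iff, mem_coe, mem_image]
    obtain ⟨v, w, rfl⟩ : ∃ v w : Qd 0 1, p = (star (tg v), tg w) :=
      ⟨gt (star p.1), gt p.2, by rw [tg_gt, tg_gt, star_star]⟩
    have hnv : ((star (tg v) : GaussianInt)).norm.natAbs = nm v := by
      rw [← tg_star, tg_norm, nm_star']; rfl
    have hnw : ((tg w : GaussianInt)).norm.natAbs = nm w := by rw [tg_norm]; rfl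
    rw [pg_iff h1 h3]
    constructor
    · rintro ⟨⟨h5, h6, h7⟩, h8⟩
      refine ⟨(v, w), ?_, rfl⟩
      have h8' : P (nm v, nm w) := by
        have : P (((star (tg v) : GaussianInt)).norm.natAbs, ((tg w : GaussianInt)).norm.natAbs) :=
          h8
        rwa [hnv, hnw] at this
      have h9 := sg_bound hN2 hN4 h7
      rw [Pool.Agent.W334.EG.mem_SP] at h9
      have hpr : prim v ∧ prim w := by
        unfold prim
        have h10 : v.re * w.im - v.im * w.re = 1 := h5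
        constructor
        · rw [← Int.isCoprime_iff_gcd_eq_one]
          exact ⟨w.im, -w.re, by linear_combination h10⟩
        · rw [← Int.isCoprime_iff_gcd_eq_one]
          exact ⟨-v.im, v.re, by linear_combination h10⟩
      rw [hE, mem_filter, mem_filter]
      refine ⟨⟨?_, h6⟩, mem_filter.2 ⟨h7, h8'⟩⟩
      unfold dedge pball
      rw [mem_filter, mem_product, mem_filter, mem_filter, mem_ball hD1, mem_ball hD1]
      exact ⟨⟨⟨⟨h9.1.1.1, by exact_mod_cast h9.1.1.2⟩, hpr.1⟩, ⟨h9.1.2.1,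
        by exact_mod_cast h9.1.2.2⟩, hpr.2⟩, h5⟩
    · rintro ⟨e, he, h9⟩
      have h10 : e = (v, w) := gp_inj h9
      rw [h10, hE, mem_filter, mem_filter] at he
      obtain ⟨⟨h11, h12⟩, h13⟩ := he
      obtain ⟨h14, h15⟩ := mem_filter.1 h13
      unfold dedge at h11
      refine ⟨⟨(mem_filter.1 h11).2, h12, h14⟩, ?_⟩
      show P (((star (tg v) : GaussianInt)).norm.natAbs, ((tg w : GaussianInt)).norm.natAbs)
      rw [hnv, hnw]
      exact h15
  rw [himg, Set.ncard_coe_finset, card_image_of_injective _ gp_inj]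

/-- a factorisation of `n^2+1` comes from a factorisation of `n+i` -/
theorem ex_fac (hc : S_CORR 0 1) {n d e : ℕ} (hn : 1 ≤ n) (h : d * e = n ^ 2 + 1) :
    ∃ v w : Qd 0 1, nm v = d ∧ nm w = e ∧ dt v w = 1 ∧ 0 < pp v w ∧
      star (tg v) * tg w = ⟨n, 1⟩ := by
  classical
  have hd : 1 ≤ d := by
    rcases Nat.eq_zero_or_pos d with h0 | h0
    · subst h0; simp at h
    · exact h0
  have he : 1 ≤ e := by
    rcases Nat.eq_zero_or_pos e with h0 | h0
    · subst h0; simp at h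
    · exact h0
  have key := hc ((max d e : ℕ) : ℝ) (fun x y => if x = d ∧ y = e then 1 else 0)
    (by exact_mod_cast hd.trans (le_max_left _ _))
  rw [Nat.floor_natCast] at key
  have h1 : (1 : ℝ) ≤ ∑ p ∈ SP 0 1 (max d e), (if p.1 = d ∧ p.2 = e then (1 : ℝ) else 0) := by
    have hm : (d, e) ∈ SP 0 1 (max d e) := by
      rw [Pool.Agent.W334.EG.mem_SP]
      refine ⟨⟨⟨hd, le_max_left _ _⟩, he, le_max_right _ _⟩, n, by omega, ?_⟩
      have : ((d * e : ℕ) : ℤ) = ((n ^ 2 + 1 : ℕ) : ℤ) := by rw [h]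
      push_cast at this
      simp only
      linarith
    refine le_trans (le_of_eq ?_) (single_le_sum (f := fun p : ℕ × ℕ =>
      if p.1 = d ∧ p.2 = e then (1 : ℝ) else 0) (fun p _ => by positivity) hm)
    simp
  have huc : (1 : ℝ) ≤ uc 0 1 := by exact_mod_cast Pool.Agent.W334.EG.uc_pos hD1
  have h2 : (0 : ℝ) < ∑ e' ∈ (dedge 0 1 ((max d e : ℕ) : ℝ)).filter (fun e => 0 < pp e.1 e.2),
      (if nm e'.1 = d ∧ nm e'.2 = e then (1 : ℝ) else 0) := by
    rw [key]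
    exact mul_pos (by linarith) (by linarith)
  obtain ⟨x, hx, hx2⟩ := exists_ne_zero_of_sum_ne_zero h2.ne'
  have hx3 : nm x.1 = d ∧ nm x.2 = e := by
    by_contra hcon
    exact hx2 (if_neg hcon)
  rw [mem_filter] at hx
  unfold dedge at hx
  have hdt : dt x.1 x.2 = 1 := (mem_filter.1 hx.1).2
  refine ⟨x.1, x.2, hx3.1, hx3.2, hdt, hx.2, ?_⟩
  have hp := prod_norm hdt
  rw [hx3.1, hx3.2, h] at hp
  have hpp := hx.2
  rw [pp01] at hpp
  have e1 : ip x.1 x.2 = n := by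
    have h6 : (ip x.1 x.2 - n) * (ip x.1 x.2 + n) = 0 := by
      push_cast at hp
      linear_combination -hp
    rcases mul_eq_zero.1 h6 with h7 | h7
    · omega
    · omega
  rw [tg_pair, e1, hdt]

end Pool.Agent.N912.EL
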