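import Pool.Agent.N912.EL.TW
import Pool.Agent.N912.PM.Pairs

/-!
Project EL (helper912): labels of the factorisations of `n^2+tn+c` with values in a finite abelian group
(extension of N912.PM.Gp, Pairs).
-/

set_option autoImplicit false

namespace Pool.Agent.N912.EL

open Finset Filter
open Pool.Agent.W78.GA (Qd nm dt nm_cast nm_mul nm_pos)
open Pool.Agent.W78.EG
open Pool.Agent.W251.EG
open Pool.Agent.W251.GX (Cm)
open Pool.Agent.W251.EX (Sqp tt sum_null)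
open Pool.Agent.V11296.CV (chpow chnrm nt ind_eq)
open Pool.Agent.N912.PM (null_scale SG SG_eq)

variable {A : Type} [AddCommGroup A]

open scoped Classical in
theorem fourierL [Finite A] {D : AddSubgroup A} {Φ : ℕ × ℕ → A} (g : A)
    (S : ℕ → Finset (ℕ × ℕ))
    (hS : ∀ X, ∀ p ∈ S X, Φ p - g ∈ D)
    (hav : ∀ ψ : AddChar A ℂ, (∃ d ∈ D, ψ d ≠ 1) → ∀ ε : ℝ, 0 < ε → ∃ N₀ : ℕ, ∀ N' : ℕ, N₀ ≤ N' →
      ∑ X ∈ Icc 1 N', 1 / (X : ℝ) ^ 2 * ‖∑ p ∈ S X, ψ (Φ p)‖ ≤ ε * Real.log N')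
    (ε : ℝ) (hε : 0 < ε) : ∃ N₀ : ℕ, ∀ N' : ℕ, N₀ ≤ N' →
      ∑ X ∈ Icc 1 N', 1 / (X : ℝ) ^ 2 * ‖∑ p ∈ S X, ((if Φ p = g then (1 : ℂ) else 0) -
        1 / (Nat.card D : ℂ))‖ ≤ ε * Real.log N' := by
  have hX : ∀ X, ‖∑ p ∈ S X, ((if Φ p = g then (1 : ℂ) else 0) -
      1 / (Nat.card D : ℂ))‖ ≤ ∑ ψ ∈ nt D, ‖∑ p ∈ S X, ψ (Φ p)‖ := by
    intro X
    have h1 : ∑ p ∈ S X, ((if Φ p = g then (1 : ℂ) else 0) - 1 / (Nat.card D : ℂ)) =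
        1 / (Nat.card A : ℂ) * ∑ ψ ∈ nt D, ψ (-g) * ∑ p ∈ S X, ψ (Φ p) := by
      rw [sum_congr rfl (g := fun p => 1 / (Nat.card A : ℂ) * ∑ ψ ∈ nt D,
        ψ (-g) * ψ (Φ p)), ← mul_sum, sum_comm]
      · refine congrArg _ (sum_congr rfl fun ψ _ => ?_)
        rw [mul_sum]
      · intro p hp
        have h4 := ind_eq D (Φ p - g) (hS X p hp)
        simp only [sub_eq_zero] at h4
        rw [h4]
        refine congrArg _ (sum_congr rfl fun ψ _ => ?_)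
        rw [← AddChar.map_add_eq_mul]
        congr 1
        abel
    rw [h1, norm_mul]
    have h2 : ‖(1 / (Nat.card A : ℂ) : ℂ)‖ ≤ 1 := by
      rw [norm_div, norm_one, Complex.norm_natCast]
      have : (1 : ℝ) ≤ Nat.card A := by exact_mod_cast (Nat.card_pos (α := A))
      rw [div_le_one (by linarith)]
      exact this
    calc ‖(1 / (Nat.card A : ℂ) : ℂ)‖ * ‖∑ ψ ∈ nt D, ψ (-g) * ∑ p ∈ S X, ψ (Φ p)‖
        ≤ 1 * ‖∑ ψ ∈ nt D, ψ (-g) * ∑ p ∈ S X, ψ (Φ p)‖ :=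
          mul_le_mul_of_nonneg_right h2 (norm_nonneg _)
      _ ≤ ∑ ψ ∈ nt D, ‖ψ (-g) * ∑ p ∈ S X, ψ (Φ p)‖ := by
          rw [one_mul]
          exact norm_sum_le _ _
      _ = _ := by
          refine sum_congr rfl fun ψ _ => ?_
          rw [norm_mul, chnrm, one_mul]
  obtain ⟨K, hK⟩ : ∃ K : ℕ, K = (nt D).card + 1 := ⟨_, rfl⟩
  have hK0 : (0 : ℝ) < K := by
    rw [hK]
    positivity
  have h2 : ∀ ψ : AddChar A ℂ, ∃ N₀ : ℕ, ψ ∈ nt D → ∀ N' : ℕ, N₀ ≤ N' →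
      ∑ X ∈ Icc 1 N', 1 / (X : ℝ) ^ 2 * ‖∑ p ∈ S X, ψ (Φ p)‖ ≤
        ε / K * Real.log N' := by
    intro ψ
    by_cases hψ : ψ ∈ nt D
    · obtain ⟨N₀, h⟩ := hav ψ (by
        unfold nt at hψ
        simpa using hψ) (ε / K) (by positivity)
      exact ⟨N₀, fun _ => h⟩
    · exact ⟨0, fun h => absurd h hψ⟩
  choose N₁ hN₁ using h2
  refine ⟨max 1 ((nt D).sup N₁), fun N' hN' => ?_⟩
  have hN1 : 1 ≤ N' := (le_max_left _ _).trans hN'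
  have hlog : 0 ≤ Real.log N' := Real.log_nonneg (by exact_mod_cast hN1)
  calc ∑ X ∈ Icc 1 N', 1 / (X : ℝ) ^ 2 *
        ‖∑ p ∈ S X, ((if Φ p = g then (1 : ℂ) else 0) - 1 / (Nat.card D : ℂ))‖
      ≤ ∑ X ∈ Icc 1 N', 1 / (X : ℝ) ^ 2 * ∑ ψ ∈ nt D, ‖∑ p ∈ S X, ψ (Φ p)‖ :=
        sum_le_sum fun X _ => mul_le_mul_of_nonneg_left (hX X) (by positivity)
    _ = ∑ ψ ∈ nt D, ∑ X ∈ Icc 1 N', 1 / (X : ℝ) ^ 2 * ‖∑ p ∈ S X, ψ (Φ p)‖ := by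
        rw [sum_comm]
        exact sum_congr rfl fun X _ => mul_sum _ _ _
    _ ≤ ∑ ψ ∈ nt D, ε / K * Real.log N' := sum_le_sum fun ψ hψ =>
        hN₁ ψ hψ N' ((Finset.le_sup hψ).trans ((le_max_right _ _).trans hN'))
    _ = (nt D).card * (ε / K * Real.log N') := by rw [sum_const, nsmul_eq_mul]
    _ ≤ K * (ε / K * Real.log N') := by
        refine mul_le_mul_of_nonneg_right ?_ (by positivity)
        rw [hK]
        push_cast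
        linarith
    _ = ε * Real.log N' := by field_simp


/-- completely additive functions `H₁`, `H₂` of the elements with values in `A`, and the label `Φ` of the
factorisations; the characters which are not trivial on `D` give an aperiodic function -/
structure GLb (t c : ℕ) (D : AddSubgroup A) (Φ : ℕ × ℕ → A) (H₁ H₂ : Qd (t : ℤ) (c : ℤ) → A) :
    Prop where
  add₁ : AddK H₁
  add₂ : AddK H₂
  lab : ∀ v w : Qd (t : ℤ) (c : ℤ), dt v w = 1 → 0 < pp v w → Φ (nm v, nm w) = H₁ v + H₂ w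
  apd : ∀ ψ : AddChar A ℂ, (∃ d ∈ D, ψ d ≠ 1) →
    Apd (Nat.card A) (fun z => ψ (H₁ z)) ∨ Apd (Nat.card A) (fun z => ψ (H₂ z))

/-- admissible values -/
def AdL (t c q a : ℕ) (D : AddSubgroup A) (Φ : ℕ × ℕ → A) (g : A) : Prop :=
  ∀ n d e : ℕ, n ≡ a [MOD q] → d * e = n ^ 2 + t * n + c → Φ (d, e) - g ∈ D

section

variable {t c : ℕ} {f : ℕ} {χ : DirichletCharacter ℂ f} {D : AddSubgroup A} {Φ : ℕ × ℕ → A}
  {H₁ H₂ : Qd (t : ℤ) (c : ℤ) → A}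

theorem cm_ch [Finite A] {H : Qd (t : ℤ) (c : ℤ) → A} (h : AddK H) (ψ : AddChar A ℂ) :
    Cm (Nat.card A) (fun z => ψ (H z)) where
  pos := Nat.card_pos
  mul := fun z w hz hw => by rw [h.mul z w hz hw, AddChar.map_add_eq_mul]
  pow := fun z => chpow ψ _

theorem lf_of [Finite A] (h : GLb t c D Φ H₁ H₂) (ψ : AddChar A ℂ) :
    LF (Nat.card A) (fun z => ψ (H₁ z)) (fun z => ψ (H₂ z)) (fun x y => ψ (Φ (x, y))) where
  c₁ := cm_ch h.add₁ ψ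
  c₂ := cm_ch h.add₂ ψ
  lab := fun v w h1 h2 => by rw [h.lab v w h1 h2, AddChar.map_add_eq_mul]
  nrm := fun x y => (chnrm ψ _).le

theorem adl_SW {q a r : ℕ} {s₁ s₂ s₃ s₄ : ℝ} {X : ℕ} {g : A} (hal : AdL t c q a D Φ g)
    {p : ℕ × ℕ} (hp : p ∈ SW (t : ℤ) (c : ℤ) q a r s₁ s₂ s₃ s₄ X) : Φ p - g ∈ D := by
  obtain ⟨_, ⟨n, _, h5, h6, h7⟩, _⟩ := mem_SWn.1 hp
  exact hal n p.1 p.2 h6 h5

open scoped Classical in
/-- the number of `n` -/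
noncomputable def cL (t c q a : ℕ) (Φ : ℕ × ℕ → A) (g : A) (X : ℕ) : ℕ :=
  ((range (X + 1)).filter (fun n : ℕ => 1 ≤ n + t ∧ n ≡ a [MOD q] ∧
    Squarefree (n ^ 2 + t * n + c) ∧ ∃ d e : ℕ, d ≤ X ∧ e ≤ X ∧ d * e = n ^ 2 + t * n + c ∧
      Φ (d, e) = g)).card

theorem cL_mono (t c q a : ℕ) (Φ : ℕ × ℕ → A) (g : A) : Monotone (cL t c q a Φ g) := by
  classical
  intro X Y h
  unfold cL
  refine card_le_card fun n hn => ?_
  rw [mem_filter, mem_range] at hn ⊢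
  obtain ⟨h1, h2, h3, h4, d, e, h5, h6, h7, h8⟩ := hn
  exact ⟨by omega, h2, h3, h4, d, e, by omega, by omega, h7, h8⟩

open scoped Classical in
theorem avg_twL [Finite A] (hF : Fd (t : ℤ) (c : ℤ) f χ) (hw : S_TWL (t : ℤ) (c : ℤ)) (hs : S_TSL (t : ℤ) (c : ℤ))
    (h : GLb t c D Φ H₁ H₂) (g : A)
    (q a r : ℕ) (hq : 1 ≤ q) (hal : AdL t c q a D Φ g) (s₁ s₂ s₃ s₄ : ℝ) (h1 : 0 ≤ s₁)
    (h2 : s₁ < s₂) (h3 : s₂ ≤ 1) (h4 : 0 ≤ s₃) (h5 : s₃ < s₄) (h6 : s₄ ≤ 1) (ε : ℝ) (hε : 0 < ε) :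
    ∃ N₀ : ℕ, ∀ N' : ℕ, N₀ ≤ N' → ∑ X ∈ Icc 1 N', 1 / (X : ℝ) ^ 2 *
      ‖∑ p ∈ SW (t : ℤ) (c : ℤ) q a r s₁ s₂ s₃ s₄ X,
        ((if Φ p = g then (1 : ℂ) else 0) - 1 / (Nat.card (D) : ℂ))‖ ≤
      ε * Real.log N' := by
  refine fourierL g (fun X => SW (t : ℤ) (c : ℤ) q a r s₁ s₂ s₃ s₄ X)
    (fun X p hp => adl_SW hal hp) (fun ψ hψ ε' hε' => ?_) ε hε
  obtain ⟨N₀, hN₀⟩ := hw (Nat.card A) _ _ _ (lf_of h ψ) (h.apd ψ hψ) q a r 0 hq s₁ s₂ s₃ s₄ h1 h2 h3 h4 h5 h6 ε' hε'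
  refine ⟨N₀, fun N' hN' => le_trans (le_of_eq ?_) (hN₀ N' hN')⟩
  refine sum_congr rfl fun X _ => ?_
  have e0 : (SW (t : ℤ) (c : ℤ) q a r s₁ s₂ s₃ s₄ X).filter (Sqp 0) =
      SW (t : ℤ) (c : ℤ) q a r s₁ s₂ s₃ s₄ X := by
    refine filter_true_of_mem fun p _ l hl hp => ?_
    have := hp.pos
    omega
  rw [e0]

open scoped Classical in
theorem avg_tsL [Finite A] (hF : Fd (t : ℤ) (c : ℤ) f χ) (hw : S_TWL (t : ℤ) (c : ℤ)) (hs : S_TSL (t : ℤ) (c : ℤ))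
    (h : GLb t c D Φ H₁ H₂) (g : A)
    (q a r : ℕ) (hq : 1 ≤ q) (hal : AdL t c q a D Φ g) (s₁ s₂ s₃ s₄ : ℝ) (h1 : 0 ≤ s₁)
    (h2 : s₁ < s₂) (h3 : s₂ ≤ 1) (h4 : 0 ≤ s₃) (h5 : s₃ < s₄) (h6 : s₄ ≤ 1) (ε : ℝ) (hε : 0 < ε) :
    ∃ N₀ : ℕ, ∀ N' : ℕ, N₀ ≤ N' → ∑ X ∈ Icc 1 N', 1 / (X : ℝ) ^ 2 *
      ‖∑ p ∈ (SW (t : ℤ) (c : ℤ) q a r s₁ s₂ s₃ s₄ X).filter (fun p => Squarefree (p.1 * p.2)),
        ((if Φ p = g then (1 : ℂ) else 0) - 1 / (Nat.card (D) : ℂ))‖ ≤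
      ε * Real.log N' := by
  refine fourierL g (fun X => (SW (t : ℤ) (c : ℤ) q a r s₁ s₂ s₃ s₄ X).filter
    (fun p => Squarefree (p.1 * p.2))) (fun X p hp => adl_SW hal (mem_filter.1 hp).1)
    (fun ψ hψ ε' hε' => ?_) ε hε
  exact hs (Nat.card A) _ _ _ (lf_of h ψ) (h.apd ψ hψ) q a r hq s₁ s₂ s₃ s₄ h1 h2 h3 h4 h5 h6 ε' hε'

open scoped Classical in
/-- all admissible values in a residue class, at almost all scales -/
theorem outL [Finite A] (hF : Fd (t : ℤ) (c : ℤ) f χ) (hS : S_SPSc (t : ℤ) (c : ℤ))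
    (hw : S_TWL (t : ℤ) (c : ℤ)) (hs : S_TSL (t : ℤ) (c : ℤ))
    (h : GLb t c D Φ H₁ H₂) (g : A) (q a : ℕ) (hq : 1 ≤ q) (hal : AdL t c q a D Φ g)
    (hqa : ∀ l : ℕ, l.Prime → l ^ 2 ∣ q → ¬ l ^ 2 ∣ a ^ 2 + t * a + c) (ε : ℝ) (hε : 0 < ε) :
    Tendsto (fun Z : ℕ => (∑ X ∈ (Icc 1 Z).filter (fun X : ℕ =>
      (cL t c q a Φ g X : ℝ) < (X : ℝ) / Real.log X ^ (Real.log 2 + ε)), 1 / (X : ℝ)) /
      Real.log Z) atTop (nhds 0) := by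
  have ht := t_le hF
  have hc := c_pos hF
  obtain ⟨k, hk⟩ : ∃ k : ℕ, k = Nat.card D := ⟨_, rfl⟩
  have hk0 : (0 : ℝ) < k := by
    rw [hk]
    exact_mod_cast Nat.card_pos
  obtain ⟨c₁, hc₁, X₀, hlow⟩ := hS q a hq
    (fun l hl hlq hd => hqa l hl hlq (by exact_mod_cast hd))
  obtain ⟨N₁, hpn⟩ := Pool.Agent.TH890.DV.pnL hF (c₁ / (2 * k)) ε (by positivity) hε
  obtain ⟨G, hG⟩ : ∃ G : ℕ × ℕ → ℂ, G = fun p => ((if Φ p = g then (1 : ℂ) else 0) -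
    1 / (Nat.card D : ℂ)) := ⟨_, rfl⟩
  have hnull : Tendsto (fun Z : ℕ => (∑ X ∈ (Icc 1 Z).filter (fun X : ℕ => c₁ / (2 * k) * X <
      ∑ r ∈ range q, ‖∑ p ∈ (SW (t : ℤ) (c : ℤ) q a r 0 1 0 1 X).filter
      (fun p => Squarefree (p.1 * p.2)), G p‖), 1 / (X : ℝ)) / Real.log Z)
      atTop (nhds 0) := by
    have hav : ∀ (r : ℕ) (δ : ℝ), 0 < δ → ∃ N₀ : ℕ, ∀ N' : ℕ, N₀ ≤ N' →
        ∑ X ∈ Icc 1 N', 1 / (X : ℝ) ^ 2 *
        ‖∑ p ∈ (SW (t : ℤ) (c : ℤ) q a r 0 1 0 1 X).filter (fun p => Squarefree (p.1 * p.2)),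
          G p‖ ≤ δ * Real.log N' := by
      intro r δ hδ
      have h9 := avg_tsL hF hw hs h g q a r hq hal 0 1 0 1 le_rfl one_pos le_rfl le_rfl one_pos le_rfl
        δ hδ
      rw [hG]
      exact h9
    have hav2 := fun r : ℕ => tt _ (hav r)
    exact sum_null hq (fun r _ => hav2 r) (c₁ / (2 * k)) (by positivity)
  refine null_of (max X₀ N₁) (fun X hX hlt => ?_) hnull
  by_contra hcon
  push Not at hcon
  have h1 := hlow X ((le_max_left _ _).trans hX)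
  obtain ⟨B, hB⟩ : ∃ B : Finset (ℕ × ℕ), B = (SP (t : ℤ) (c : ℤ) X).filter
    (fun p => Squarefree (p.1 * p.2) ∧ ∃ n : ℕ, 0 < 2 * (n : ℤ) + (t : ℤ) ∧
      (p.1 * p.2 : ℤ) = (n : ℤ) ^ 2 + (t : ℤ) * n + (c : ℤ) ∧ n ≡ a [MOD q]) := ⟨_, rfl⟩
  rw [← hB] at h1
  have hBm : ∀ p ∈ B, p ∈ SP (t : ℤ) (c : ℤ) X ∧ Squarefree (p.1 * p.2) ∧ 1 ≤ p.1 ∧ p.1 ≤ X ∧
      1 ≤ p.2 ∧ p.2 ≤ X ∧ ∃ n : ℕ, 1 ≤ n + t ∧ p.1 * p.2 = n ^ 2 + t * n + c ∧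
      n ≡ a [MOD q] := by
    intro p hp
    rw [hB] at hp
    obtain ⟨h2, h3, n, h4, h5, h6⟩ := mem_filter.1 hp
    obtain ⟨h7, h8⟩ := (fcond n p.1 p.2).1 ⟨h4, h5⟩
    have h9 := h2
    unfold SP at h9
    simp only [mem_filter, mem_product, mem_Icc] at h9
    exact ⟨h2, h3, h9.1.1.1, h9.1.1.2, h9.1.2.1, h9.1.2.2, n, h7, h8, h6⟩
  -- the sum over `B`
  have hsum : ‖∑ p ∈ B, G p‖ ≤ c₁ / (2 * k) * X := by
    refine le_trans ?_ hcon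
    have h2 : ∑ p ∈ B, G p = ∑ r ∈ range q,
        ∑ p ∈ (SW (t : ℤ) (c : ℤ) q a r 0 1 0 1 X).filter (fun p => Squarefree (p.1 * p.2)),
        G p := by
      rw [← sum_fiberwise_of_maps_to (s := B) (t := range q) (g := fun p : ℕ × ℕ => p.1 % q)
        (fun p _ => mem_range.2 (Nat.mod_lt _ (by omega)))]
      refine sum_congr rfl fun r hr => ?_
      refine sum_congr ?_ fun _ _ => rfl
      have hr' : r % q = r := Nat.mod_eq_of_lt (mem_range.1 hr)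
      ext p
      rw [mem_filter, mem_filter, mem_SWn]
      constructor
      · rintro ⟨h3, h4⟩
        obtain ⟨h5, h6, h7, h8, h9, h10, n, h11, h12, h13⟩ := hBm p h3
        refine ⟨⟨⟨⟨h7, h8⟩, h9, h10⟩, ⟨n, h11, h12, h13, ?_⟩, ?_, ?_, ?_, ?_⟩, h6⟩
        · show p.1 % q = r % q
          rw [h4, hr']
        · rw [zero_mul]; exact_mod_cast h7
        · rw [one_mul]; exact_mod_cast h8
        · rw [zero_mul]; exact_mod_cast h9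
        · rw [one_mul]; exact_mod_cast h10
      · rintro ⟨⟨⟨h3, h4⟩, ⟨n, h5, h6, h7, h8⟩, _⟩, h9⟩
        have h10 := (fcond n p.1 p.2).2 ⟨h5, h6⟩
        refine ⟨?_, ?_⟩
        · rw [hB]
          refine mem_filter.2 ⟨?_, h9, n, h10.1, h10.2, h7⟩
          unfold SP
          rw [mem_filter, mem_product, mem_Icc, mem_Icc]
          exact ⟨⟨h3, h4⟩, n, h10.1, h10.2⟩
        · have h11 : p.1 % q = r % q := h8
          rw [h11, hr']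
    rw [h2]
    exact norm_sum_le _ _
  -- the pairs with the value `g`
  obtain ⟨S, hSd⟩ : ∃ S : Finset (ℕ × ℕ), S = B.filter
    (fun p => Φ p = g) := ⟨_, rfl⟩
  have hS1 : c₁ / (2 * k) * X ≤ (S.card : ℝ) := by
    have h2 : ∑ p ∈ B, G p = (((S.card : ℝ) - 1 / k * B.card : ℝ) : ℂ) := by
      rw [hG, sum_sub_distrib, sum_boole, hSd, sum_const, nsmul_eq_mul, ← hk]
      push_cast
      ring
    rw [h2, Complex.norm_real, Real.norm_eq_abs] at hsum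
    have h5 := (abs_le.1 hsum).1
    have h6 : 1 / (k : ℝ) * (c₁ * X) ≤ 1 / k * B.card :=
      mul_le_mul_of_nonneg_left h1 (by positivity)
    have h7 : 1 / (k : ℝ) * (c₁ * X) = c₁ / (2 * k) * X + c₁ / (2 * k) * X := by
      field_simp
      ring
    linarith
  have hSm : ∀ p ∈ S, p ∈ B ∧ Φ p = g := by
    intro p hp
    rw [hSd] at hp
    exact mem_filter.1 hp
  have h3 := hpn X ((le_max_right _ _).trans hX) S
    (fun p hp => ⟨(hBm p (hSm p hp).1).1, (hBm p (hSm p hp).1).2.1⟩) hS1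
  have h4 : (S.image (fun p : ℕ × ℕ => Nat.sqrt (p.1 * p.2 - c))).card ≤
      cL t c q a Φ g X := by
    unfold cL
    refine card_le_card fun n hn => ?_
    obtain ⟨p, hp, rfl⟩ := mem_image.1 hn
    obtain ⟨hpB, hpe⟩ := hSm p hp
    obtain ⟨_, hsf, _, h8, _, h10, n, h11, h12, h13⟩ := hBm p hpB
    have h14 : Nat.sqrt (p.1 * p.2 - c) = n := by
      rw [h12]
      exact fsqrt ht n
    rw [h14, mem_filter, mem_range]
    refine ⟨?_, h11, h13, h12 ▸ hsf, p.1, p.2, h8, h10, h12, hpe⟩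
    by_contra hcon2
    push Not at hcon2
    have h15 : p.1 * p.2 ≤ X * X := Nat.mul_le_mul h8 h10
    nlinarith [Nat.zero_le (t * n)]
  have h5 : ((S.image (fun p : ℕ × ℕ => Nat.sqrt (p.1 * p.2 - c))).card : ℝ) ≤
      cL t c q a Φ g X := by
    exact_mod_cast h4
  linarith

/-- all large scales -/
theorem outLAll [Finite A] (hF : Fd (t : ℤ) (c : ℤ) f χ) (hS : S_SPSc (t : ℤ) (c : ℤ))
    (hw : S_TWL (t : ℤ) (c : ℤ)) (hs : S_TSL (t : ℤ) (c : ℤ))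
    (h : GLb t c D Φ H₁ H₂) (g : A) (q a : ℕ) (hq : 1 ≤ q) (hal : AdL t c q a D Φ g)
    (hqa : ∀ l : ℕ, l.Prime → l ^ 2 ∣ q → ¬ l ^ 2 ∣ a ^ 2 + t * a + c) (δ : ℝ) (hδ : 0 < δ) :
    ∃ N₀ : ℕ, ∀ N : ℕ, N₀ ≤ N → (N : ℝ) ^ (1 - δ) ≤ cL t c q a Φ g N := by
  refine all_of (cL_mono t c q a Φ g) (fun ε hε => ?_) δ hδ
  have hl2 := Real.log_pos (show (1 : ℝ) < 2 by norm_num)
  have h1 := outL hF hS hw hs h g q a hq hal hqa (Real.log 2 + ε) (by linarith)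
  have h2 : Real.log 2 + (Real.log 2 + ε) = 2 * Real.log 2 + ε := by ring
  rwa [h2] at h1

theorem norm_devL [Finite A] (B : Finset (ℕ × ℕ)) (g : A) [DecidablePred fun p : ℕ × ℕ =>
    Φ p = g] :
    (‖∑ p ∈ B, ((if Φ p = g then (1 : ℂ) else 0) - 1 / (Nat.card D : ℂ))‖ : ℝ) =
      |((B.filter (fun p => Φ p = g)).card : ℝ) - 1 / (Nat.card D : ℝ) * B.card| := by
  have h2 : ∑ p ∈ B, ((if Φ p = g then (1 : ℂ) else 0) - 1 / (Nat.card D : ℂ)) =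
      ((((B.filter (fun p => Φ p = g)).card : ℝ) -
        1 / (Nat.card D : ℝ) * B.card : ℝ) : ℂ) := by
    rw [sum_sub_distrib, sum_boole, sum_const, nsmul_eq_mul]
    push_cast
    ring
  rw [h2, Complex.norm_real, Real.norm_eq_abs]

open scoped Classical in
/-- the pairs of factors in general windows -/
theorem outGLx [Finite A] (hF : Fd (t : ℤ) (c : ℤ) f χ) (hw : S_TWL (t : ℤ) (c : ℤ)) (hs : S_TSL (t : ℤ) (c : ℤ))
    (h : GLb t c D Φ H₁ H₂) (g : A)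
    (q a r : ℕ) (hq : 1 ≤ q) (hal : AdL t c q a D Φ g) (s₁ s₂ s₃ s₄ : ℝ) (h1 : 0 ≤ s₁)
    (h2 : s₁ < s₂) (h4 : 0 ≤ s₃) (h5 : s₃ < s₄) (ε : ℝ) (hε : 0 < ε) :
    Tendsto (fun N : ℕ => (∑ X ∈ (Icc 1 N).filter (fun X : ℕ => ε * X <
      |(((SG t c q a r s₁ s₂ s₃ s₄ X).filter (fun p => Φ p = g)).card : ℝ) -
        1 / (Nat.card D : ℝ) * (SG t c q a r s₁ s₂ s₃ s₄ X).card|), 1 / (X : ℝ)) /
      Real.log N) atTop (nhds 0) := by
  obtain ⟨S, hS⟩ := exists_nat_ge (max (max s₂ s₄) 1)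
  have hS1 : 1 ≤ S := by
    have : (1 : ℝ) ≤ S := (le_max_right _ _).trans hS
    exact_mod_cast this
  have hS0 : (0 : ℝ) < S := by exact_mod_cast hS1
  have hS2 : s₂ ≤ S := ((le_max_left _ _).trans (le_max_left _ _)).trans hS
  have hS4 : s₄ ≤ S := ((le_max_right _ _).trans (le_max_left _ _)).trans hS
  have h7 := tt (fun X => ∑ p ∈ SW (t : ℤ) (c : ℤ) q a r (s₁ / S) (s₂ / S) (s₃ / S) (s₄ / S) X,
        ((if Φ p = g then (1 : ℂ) else 0) - 1 / (Nat.card D : ℂ)))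
    (fun ε' hε' => avg_twL hF hw hs h g q a r hq hal (s₁ / S) (s₂ / S) (s₃ / S) (s₄ / S)
      (by positivity) (div_lt_div_of_pos_right h2 hS0) (by rw [div_le_one hS0]; exact hS2)
      (by positivity) (div_lt_div_of_pos_right h5 hS0) (by rw [div_le_one hS0]; exact hS4)
      ε' hε') (ε / S) (by positivity)
  have h8 := null_scale hS1 h7
  refine h8.congr fun N => ?_
  congr 1
  refine sum_congr ?_ fun _ _ => rfl
  ext X
  rw [mem_filter, mem_filter]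
  refine and_congr_right fun _ => ?_
  rw [norm_devL, SG_eq h1 h4 hS1 hS2 hS4]
  have e : ε / S * ((S * X : ℕ) : ℝ) = ε * X := by
    push_cast
    field_simp
  rw [e]

open scoped Classical in
/-- the pairs of factors of squarefree values in general windows -/
theorem outGLsq [Finite A] (hF : Fd (t : ℤ) (c : ℤ) f χ) (hw : S_TWL (t : ℤ) (c : ℤ)) (hs : S_TSL (t : ℤ) (c : ℤ))
    (h : GLb t c D Φ H₁ H₂) (g : A)
    (q a r : ℕ) (hq : 1 ≤ q) (hal : AdL t c q a D Φ g) (s₁ s₂ s₃ s₄ : ℝ) (h1 : 0 ≤ s₁)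
    (h2 : s₁ < s₂) (h4 : 0 ≤ s₃) (h5 : s₃ < s₄) (ε : ℝ) (hε : 0 < ε) :
    Tendsto (fun N : ℕ => (∑ X ∈ (Icc 1 N).filter (fun X : ℕ => ε * X <
      |((((SG t c q a r s₁ s₂ s₃ s₄ X).filter (fun p => Squarefree (p.1 * p.2))).filter
        (fun p => Φ p = g)).card : ℝ) -
        1 / (Nat.card D : ℝ) * ((SG t c q a r s₁ s₂ s₃ s₄ X).filter
          (fun p => Squarefree (p.1 * p.2))).card|), 1 / (X : ℝ)) /
      Real.log N) atTop (nhds 0) := by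
  obtain ⟨S, hS⟩ := exists_nat_ge (max (max s₂ s₄) 1)
  have hS1 : 1 ≤ S := by
    have : (1 : ℝ) ≤ S := (le_max_right _ _).trans hS
    exact_mod_cast this
  have hS0 : (0 : ℝ) < S := by exact_mod_cast hS1
  have hS2 : s₂ ≤ S := ((le_max_left _ _).trans (le_max_left _ _)).trans hS
  have hS4 : s₄ ≤ S := ((le_max_right _ _).trans (le_max_left _ _)).trans hS
  have h7 := tt (fun X => ∑ p ∈ (SW (t : ℤ) (c : ℤ) q a r (s₁ / S) (s₂ / S) (s₃ / S)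
        (s₄ / S) X).filter (fun p => Squarefree (p.1 * p.2)),
        ((if Φ p = g then (1 : ℂ) else 0) - 1 / (Nat.card D : ℂ)))
    (fun ε' hε' => avg_tsL hF hw hs h g q a r hq hal (s₁ / S) (s₂ / S) (s₃ / S) (s₄ / S)
      (by positivity) (div_lt_div_of_pos_right h2 hS0) (by rw [div_le_one hS0]; exact hS2)
      (by positivity) (div_lt_div_of_pos_right h5 hS0) (by rw [div_le_one hS0]; exact hS4)
      ε' hε') (ε / S) (by positivity)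
  have h8 := null_scale hS1 h7
  refine h8.congr fun N => ?_
  congr 1
  refine sum_congr ?_ fun _ _ => rfl
  ext X
  rw [mem_filter, mem_filter]
  refine and_congr_right fun _ => ?_
  rw [norm_devL, SG_eq h1 h4 hS1 hS2 hS4]
  have e : ε / S * ((S * X : ℕ) : ℝ) = ε * X := by
    push_cast
    field_simp
  rw [e]

end

end Pool.Agent.N912.EL
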