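import Pool.Agent.N912.EL.Stm
import Pool.Agent.W460.EX.Mainy

/-!
# Project EL (helper912): the means are small at almost all scales, for arbitrary functions
(extension of W349.EG.Mainy)
-/

set_option autoImplicit false

namespace Pool.Agent.N912.EL

open Finset Filter
open Pool.Agent.W78.GA (Qd nm)
open Pool.Agent.W251.EX (Sv Tm)
open Pool.Agent.W251.GX (Cm)
open Pool.Agent.W78.EG
open Pool.Agent.W460.EX (harm_le aa aa_of sv_aa)

variable {t c : ℤ} {f : ℕ} {χ : DirichletCharacter ℂ f}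

theorem g2_le {N : ℕ} {F₁ F₂ : Qd t c → ℂ} (c1 : Cm N F₁) (c2 : Cm N F₂) (R : Qd t c → Qd t c → Prop)
    (e : Qd t c × Qd t c) : ‖g2 F₁ F₂ R e‖ ≤ 1 := by
  have hn : ∀ z : ℂ, z ^ N = 1 → ‖z‖ = 1 := fun z hz =>
    Complex.norm_eq_one_of_pow_eq_one hz (by have := c1.pos; omega)
  unfold g2
  split_ifs
  · rw [norm_mul, hn _ (c1.pow _), hn _ (c2.pow _), one_mul]
  · rw [norm_zero]
    exact zero_le_one

theorem maina (_hF : Fd t c f χ) (h1 : S_AVXa t c χ) (h2 : S_REGX t c) (h3 : S_DCV χ)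
    (hc : S_PCNT χ) : S_MAINa t c χ := by
  intro N F₁ F₂ c1 c2 q hq hBt R hR s₁ s₂ s₃ s₄ hs1 hs12 hs2 hs3 hs34 hs4
  have hg : ∀ e, ‖g2 F₁ F₂ R e‖ ≤ 1 := g2_le c1 c2 R
  obtain ⟨C, hC, hb, hr⟩ := h2 (g2 F₁ F₂ R) hg s₁ s₂ s₃ s₄ hs1 hs12 hs2 hs3 hs34 hs4
  obtain ⟨c', C', hc', Q₀, hQ₀⟩ := hc
  obtain ⟨A, hA⟩ : ∃ A : ℝ → ℂ, A = AG (g2 F₁ F₂ R) s₁ s₂ s₃ s₄ := ⟨_, rfl⟩
  rw [← hA] at hb hr
  have hSv := sv_aa hC hb hr
  intro ε hε
  have hmain := h3 (aa A) (2 * C) hSv ?_ ε hε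
  · obtain ⟨N₀, hN₀⟩ := hmain
    refine ⟨N₀, fun N' hN' => ?_⟩
    refine le_trans (le_of_eq ?_) (hN₀ N' hN')
    refine Finset.sum_congr rfl fun X hX => ?_
    have hX1 : (0 : ℝ) < X := by
      have := (Finset.mem_Icc.1 hX).1
      exact_mod_cast this
    rw [aa_of hX1, hA, norm_div, Complex.norm_real, Real.norm_of_nonneg hX1.le]
    field_simp
  · intro η hη Q₁
    obtain ⟨T, hT⟩ : ∃ T : ℕ, 4 * (C * |C'|) / η ≤ T := exists_nat_ge _
    obtain ⟨Q₂, N₀, hN₀⟩ := h1 N F₁ F₂ c1 c2 q hq hBt R hR s₁ s₂ s₃ s₄ hs1 hs12 hs2 hs3 hs34 hs4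
      (η / 2) (by positivity) (max (max Q₁ Q₀) (max T 1))
    refine ⟨Q₂, max N₀ 3, fun N' hN' => ?_⟩
    obtain ⟨Q, hQ1, hQ2, hQ3⟩ := hN₀ N' ((le_max_left _ _).trans hN')
    have hN3 : 3 ≤ N' := (le_max_right _ _).trans hN'
    have ha : Q₁ ≤ Q := (le_max_left _ _).trans ((le_max_left _ _).trans hQ1)
    have hb' : Q₀ ≤ Q := (le_max_right _ _).trans ((le_max_left _ _).trans hQ1)
    have hc'' : T ≤ Q := (le_max_left _ _).trans ((le_max_right _ _).trans hQ1)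
    have hd : 1 ≤ Q := (le_max_right _ _).trans ((le_max_right _ _).trans hQ1)
    have hQpos : (0 : ℝ) < Q := by exact_mod_cast hd
    refine ⟨Q, ha, hQ2, ?_⟩
    rw [← hA] at hQ3
    have hlog : 1 ≤ Real.log N' := by
      rw [← Real.log_exp 1]
      apply Real.log_le_log (Real.exp_pos 1)
      have h4 := Real.exp_one_lt_d9
      have h5 : (3 : ℝ) ≤ N' := by exact_mod_cast hN3
      linarith
    have hmem : ∀ p ∈ PQ χ Q, Q < p := fun p hp => by
      unfold PQ at hp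
      rw [Finset.mem_filter, Finset.mem_Ioc] at hp
      exact hp.1.1
    have hlogp : ∀ p ∈ PQ χ Q, 0 ≤ Real.log p := fun p _ => Real.log_natCast_nonneg p
    -- the error term
    have hsum : ∀ X : ℕ, 1 ≤ X → 1 / (X : ℝ) * ‖∑ p ∈ PQ χ Q, (Real.log p : ℂ) *
        aa A ((X : ℝ) / p)‖ ≤ 1 / (X : ℝ) ^ 2 *
          ‖∑ p ∈ PQ χ Q, ((Real.log p * ((p : ℝ) + 1) : ℝ) : ℂ) * A ((X : ℝ) / p)‖ +
            C * |C'| * (1 / (X : ℝ)) := by
      intro X hX
      have hX1 : (0 : ℝ) < X := by exact_mod_cast hX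
      have hXc : (X : ℂ) ≠ 0 := by
        have : X ≠ 0 := by omega
        exact_mod_cast this
      have e1 : ∑ p ∈ PQ χ Q, (Real.log p : ℂ) * aa A ((X : ℝ) / p) = (1 / (X : ℂ)) *
          (∑ p ∈ PQ χ Q, ((Real.log p * ((p : ℝ) + 1) : ℝ) : ℂ) * A ((X : ℝ) / p) -
            ∑ p ∈ PQ χ Q, (Real.log p : ℂ) * A ((X : ℝ) / p)) := by
        rw [← Finset.sum_sub_distrib, Finset.mul_sum]
        refine Finset.sum_congr rfl fun p hp => ?_
        have hp1 : 0 < p := by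
          have := hmem p hp
          omega
        have hp2 : (0 : ℝ) < p := by exact_mod_cast hp1
        have hp3 : (p : ℂ) ≠ 0 := by
          have : p ≠ 0 := by omega
          exact_mod_cast this
        rw [aa_of (div_pos hX1 hp2)]
        push_cast
        field_simp
        ring
      have e2 : ‖∑ p ∈ PQ χ Q, (Real.log p : ℂ) * A ((X : ℝ) / p)‖ ≤ C * |C'| * X := by
        calc ‖∑ p ∈ PQ χ Q, (Real.log p : ℂ) * A ((X : ℝ) / p)‖
            ≤ ∑ p ∈ PQ χ Q, ‖(Real.log p : ℂ) * A ((X : ℝ) / p)‖ := norm_sum_le _ _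
          _ ≤ ∑ p ∈ PQ χ Q, Real.log p * (C * (X / Q)) := by
              refine Finset.sum_le_sum fun p hp => ?_
              have hp1 := hmem p hp
              have hp2 : (Q : ℝ) ≤ p := by exact_mod_cast hp1.le
              have hp3 : (0 : ℝ) < p := lt_of_lt_of_le hQpos hp2
              rw [norm_mul, Complex.norm_real, Real.norm_of_nonneg (hlogp p hp)]
              refine mul_le_mul_of_nonneg_left ((hb _ (div_pos hX1 hp3)).trans ?_) (hlogp p hp)
              gcongr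
          _ = (∑ p ∈ PQ χ Q, Real.log p) * (C * (X / Q)) := by rw [Finset.sum_mul]
          _ ≤ (|C'| * Q) * (C * (X / Q)) := by
              refine mul_le_mul_of_nonneg_right ?_ (by positivity)
              refine ((hQ₀ Q hb').2.2.2).trans ?_
              exact mul_le_mul_of_nonneg_right (le_abs_self _) hQpos.le
          _ = C * |C'| * X := by field_simp
      rw [e1, norm_mul, norm_div, norm_one, Complex.norm_natCast]
      have e3 := norm_sub_le
        (∑ p ∈ PQ χ Q, ((Real.log p * ((p : ℝ) + 1) : ℝ) : ℂ) * A ((X : ℝ) / p))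
        (∑ p ∈ PQ χ Q, (Real.log p : ℂ) * A ((X : ℝ) / p))
      have e4 : 1 / (X : ℝ) * (1 / (X : ℝ) *
          ‖∑ p ∈ PQ χ Q, ((Real.log p * ((p : ℝ) + 1) : ℝ) : ℂ) * A ((X : ℝ) / p) -
            ∑ p ∈ PQ χ Q, (Real.log p : ℂ) * A ((X : ℝ) / p)‖) ≤ 1 / (X : ℝ) * (1 / (X : ℝ) *
          (‖∑ p ∈ PQ χ Q, ((Real.log p * ((p : ℝ) + 1) : ℝ) : ℂ) * A ((X : ℝ) / p)‖ +
            C * |C'| * X)) := by
        have h0 : 0 ≤ 1 / (X : ℝ) := by positivity
        exact mul_le_mul_of_nonneg_left (mul_le_mul_of_nonneg_left (e3.trans (by linarith)) h0) h0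
      refine e4.trans (le_of_eq ?_)
      field_simp
    calc ∑ X ∈ Icc 1 N', 1 / (X : ℝ) * ‖∑ p ∈ PQ χ Q, (Real.log p : ℂ) * aa A ((X : ℝ) / p)‖
        ≤ ∑ X ∈ Icc 1 N', (1 / (X : ℝ) ^ 2 *
          ‖∑ p ∈ PQ χ Q, ((Real.log p * ((p : ℝ) + 1) : ℝ) : ℂ) * A ((X : ℝ) / p)‖ +
            C * |C'| * (1 / (X : ℝ))) :=
          Finset.sum_le_sum fun X hX => hsum X (Finset.mem_Icc.1 hX).1
      _ = ∑ X ∈ Icc 1 N', 1 / (X : ℝ) ^ 2 *
          ‖∑ p ∈ PQ χ Q, ((Real.log p * ((p : ℝ) + 1) : ℝ) : ℂ) * A ((X : ℝ) / p)‖ +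
            C * |C'| * ∑ X ∈ Icc 1 N', 1 / (X : ℝ) := by
          rw [Finset.sum_add_distrib, ← Finset.mul_sum]
      _ ≤ η / 2 * Q * Real.log N' + C * |C'| * (1 + Real.log N') := by
          have h0 : 0 ≤ C * |C'| := by positivity
          exact add_le_add hQ3 (mul_le_mul_of_nonneg_left (harm_le N') h0)
      _ ≤ η * Q * Real.log N' := by
          have h0 : 0 ≤ C * |C'| := by positivity
          have h4 : 4 * (C * |C'|) ≤ η * Q := by
            rw [div_le_iff₀ hη] at hT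
            have h5 : (T : ℝ) ≤ Q := by exact_mod_cast hc''
            calc 4 * (C * |C'|) ≤ T * η := hT
              _ ≤ Q * η := by gcongr
              _ = η * Q := mul_comm _ _
          have h5 : C * |C'| * (1 + Real.log N') ≤ C * |C'| * (2 * Real.log N') := by
            apply mul_le_mul_of_nonneg_left _ h0
            linarith
          have h6 : 4 * (C * |C'|) * Real.log N' ≤ η * Q * Real.log N' := by
            apply mul_le_mul_of_nonneg_right h4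
            linarith
          linarith

end Pool.Agent.N912.EL
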