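import Pool.Agent.N912.EL.Stm2
import Pool.Agent.N912.HL.H8

/-!
Project EL (helper912), statements, third part: functions of the norm.
-/

set_option autoImplicit false

namespace Pool.Agent.N912.EL

/-- FARN: for functions of the norm only the Dirichlet characters matter -/
def S_FARN : Prop := ∀ (N : ℕ) (F : ℕ → ℂ), 1 ≤ N → (∀ n, F n ^ N = 1) →
  Pool.Agent.N912.HL.FarD F → FarG (fun z => F z.norm.natAbs)

end Pool.Agent.N912.EL
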